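import Mathlib

/-!
# Counting lemmas for cells with many points
-/

open Finset

namespace Pool.Agent.V1161.ZW

/-- many cells with many points, from a lower bound for the truncated counts -/
lemma rich_card (N : ℕ) (c : ℕ → ℝ) (l θ ε q : ℝ) (hl : 0 < l) (hε : 0 ≤ ε)
    (h : q * (l * N) ≤ ∑ k ∈ range N, min (c k) ((1 + ε) * l)) :
    (q - ε - θ) * N ≤ (1 - θ) * (((range N).filter (fun k => θ * l ≤ c k)).card : ℝ) := by
  classical
  set A := (range N).filter (fun k => θ * l ≤ c k) with hA
  set B := (range N).filter (fun k => ¬ θ * l ≤ c k) with hB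
  have hcard : (A.card : ℝ) + B.card = N := by
    have h1 := Finset.card_filter_add_card_filter_not (s := range N) (fun k => θ * l ≤ c k)
    rw [card_range] at h1
    exact_mod_cast h1
  have h1 : ∑ k ∈ range N, min (c k) ((1 + ε) * l) ≤
      A.card * ((1 + ε) * l) + B.card * (θ * l) := by
    rw [← sum_filter_add_sum_filter_not (range N) (fun k => θ * l ≤ c k)]
    apply add_le_add
    · calc ∑ k ∈ A, min (c k) ((1 + ε) * l) ≤ ∑ _k ∈ A, (1 + ε) * l :=
            sum_le_sum fun k _ => min_le_right _ _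
        _ = _ := by rw [sum_const, nsmul_eq_mul]
    · calc ∑ k ∈ B, min (c k) ((1 + ε) * l) ≤ ∑ _k ∈ B, θ * l :=
            sum_le_sum fun k hk => (min_le_left _ _).trans (le_of_lt (not_le.1 (mem_filter.1 hk).2))
        _ = _ := by rw [sum_const, nsmul_eq_mul]
  have h2 : q * N ≤ A.card * (1 + ε) + B.card * θ := by
    have h3 : (q * N) * l ≤ (A.card * (1 + ε) + B.card * θ) * l := by
      have e1 : (q * N) * l = q * (l * N) := by ring
      have e2 : (A.card * (1 + ε) + B.card * θ) * l =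
        A.card * ((1 + ε) * l) + B.card * (θ * l) := by ring
      rw [e1, e2]
      exact h.trans h1
    exact le_of_mul_le_mul_right h3 hl
  have hB' : (B.card : ℝ) = N - A.card := by linarith
  have hB0 : (0 : ℝ) ≤ B.card := Nat.cast_nonneg _
  have hA0 : (A.card : ℝ) ≤ N := by linarith
  rw [hB'] at h2
  have h4 := mul_le_mul_of_nonneg_left hA0 hε
  nlinarith

/-- double counting -/
lemma joint_card (N m k : ℕ) (A : Fin m → Finset ℕ) (hA : ∀ i, A i ⊆ range N) :
    (∑ i, ((A i).card : ℝ)) - k * N ≤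
      (m - k) * (((range N).filter (fun j =>
        k + 1 ≤ (univ.filter (fun i => j ∈ A i)).card)).card : ℝ) := by
  classical
  set B := (range N).filter (fun j => k + 1 ≤ (univ.filter (fun i => j ∈ A i)).card) with hB
  set B' := (range N).filter (fun j => ¬ k + 1 ≤ (univ.filter (fun i => j ∈ A i)).card) with hB'
  have hcard : (B.card : ℝ) + B'.card = N := by
    have h1 := Finset.card_filter_add_card_filter_not (s := range N)
      (fun j => k + 1 ≤ (univ.filter (fun i => j ∈ A i)).card)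
    rw [card_range] at h1
    exact_mod_cast h1
  have h1 : ∑ i, (A i).card = ∑ j ∈ range N, (univ.filter (fun i => j ∈ A i)).card := by
    have e : ∀ i, (A i).card = ∑ j ∈ range N, if j ∈ A i then 1 else 0 := by
      intro i
      rw [← card_filter]
      congr 1
      ext j
      simp only [mem_filter]
      exact ⟨fun h => ⟨hA i h, h⟩, fun h => h.2⟩
    simp_rw [e, card_filter]
    exact sum_comm
  have h2 : (∑ j ∈ range N, ((univ.filter (fun i => j ∈ A i)).card : ℝ)) ≤
      B.card * m + B'.card * k := by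
    rw [← sum_filter_add_sum_filter_not (range N)
      (fun j => k + 1 ≤ (univ.filter (fun i => j ∈ A i)).card)]
    apply add_le_add
    · calc ∑ j ∈ B, ((univ.filter (fun i => j ∈ A i)).card : ℝ) ≤ ∑ _j ∈ B, (m : ℝ) := by
            apply sum_le_sum
            intro j _
            have h3 := card_le_univ (univ.filter (fun i => j ∈ A i))
            rw [Fintype.card_fin] at h3
            exact_mod_cast h3
        _ = _ := by rw [sum_const, nsmul_eq_mul]
    · calc ∑ j ∈ B', ((univ.filter (fun i => j ∈ A i)).card : ℝ) ≤ ∑ _j ∈ B', (k : ℝ) := by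
            apply sum_le_sum
            intro j hj
            have h3 := (mem_filter.1 hj).2
            have h4 : (univ.filter (fun i => j ∈ A i)).card ≤ k := by omega
            exact_mod_cast h4
        _ = _ := by rw [sum_const, nsmul_eq_mul]
  have h3 : (∑ i, ((A i).card : ℝ)) = ∑ j ∈ range N, ((univ.filter (fun i => j ∈ A i)).card : ℝ) := by
    exact_mod_cast h1
  rw [h3]
  have h5 : (B'.card : ℝ) = N - B.card := by linarith
  rw [h5] at h2
  nlinarith

lemma card_inj (m k : ℕ) : (univ.filter (fun a : Fin k → Fin m => Function.Injective a)).card =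
    m.descFactorial k := by
  classical
  have h1 : (univ.filter (fun a : Fin k → Fin m => Function.Injective a)).card =
      Fintype.card {a : Fin k → Fin m // Function.Injective a} := by
    rw [Fintype.card_subtype]
  rw [h1, Fintype.card_congr (Equiv.subtypeInjectiveEquivEmbedding (Fin k) (Fin m)),
    Fintype.card_embedding_eq, Fintype.card_fin, Fintype.card_fin]

lemma desc_ge (m k : ℕ) (hk : k ≤ m) (hm : 0 < m) :
    (m : ℝ) ^ k * (1 - (k : ℝ) ^ 2 / m) ≤ m.descFactorial k := by
  have hm' : (0 : ℝ) < m := by exact_mod_cast hm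
  have hk' : (k : ℝ) ≤ m := by exact_mod_cast hk
  have h1 : ((m - k : ℕ) : ℝ) ^ k ≤ m.descFactorial k := by
    have h2 := Nat.pow_sub_le_descFactorial m k
    have h3 : (m - k) ^ k ≤ (m + 1 - k) ^ k := Nat.pow_le_pow_left (by omega) _
    exact_mod_cast h3.trans h2
  refine le_trans ?_ h1
  rw [Nat.cast_sub hk]
  have h4 : (m : ℝ) - k = m * (1 + -(k / m)) := by field_simp; ring
  rw [h4, mul_pow]
  apply mul_le_mul_of_nonneg_left _ (by positivity)
  have h5 : (-2 : ℝ) ≤ -(k / m) := by
    have : (k : ℝ) / m ≤ 1 := by rw [div_le_one hm']; exact hk'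
    linarith
  have h6 := one_add_mul_le_pow h5 k
  refine le_trans (le_of_eq ?_) h6
  field_simp
  ring

/-- among many functions with a large mean there are `k` whose product has a large mean -/
theorem pattern (N m k : ℕ) (hN : 0 < N) (hk : 1 ≤ k) (hkm : k ≤ m) (x : Fin m → ℕ → ℝ)
    (hx0 : ∀ i j, 0 ≤ x i j) (hx1 : ∀ i j, x i j ≤ 1) (q : ℝ) (hq0 : 0 ≤ q)
    (hq : ∀ i, q * N ≤ ∑ j ∈ range N, x i j) :
    ∃ a : Fin k → Fin m, Function.Injective a ∧
      (q ^ k - (k : ℝ) ^ 2 / m) * N ≤ ∑ j ∈ range N, ∏ i, x (a i) j := by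
  classical
  have hm : 0 < m := by omega
  have hm' : (0 : ℝ) < m := by exact_mod_cast hm
  have hN' : (0 : ℝ) < N := by exact_mod_cast hN
  set P : (Fin k → Fin m) → ℝ := fun a => ∑ j ∈ range N, ∏ i, x (a i) j with hP
  have hP0 : ∀ a, 0 ≤ P a := fun a => sum_nonneg fun j _ => prod_nonneg fun i _ => hx0 _ _
  have hP1 : ∀ a, P a ≤ N := by
    intro a
    calc P a ≤ ∑ _j ∈ range N, (1 : ℝ) :=
          sum_le_sum fun j _ => prod_le_one (fun i _ => hx0 _ _) fun i _ => hx1 _ _
      _ = N := by simp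
  -- the power mean
  have hsum : (m * q) ^ k * N ≤ ∑ a, P a := by
    have e1 : ∑ a, P a = ∑ j ∈ range N, (∑ i, x i j) ^ k := by
      rw [hP, sum_comm]
      apply sum_congr rfl
      intro j _
      rw [Fintype.sum_pow]
    rw [e1]
    have h2 : (m * q) * N ≤ ∑ j ∈ range N, ∑ i, x i j := by
      rw [sum_comm]
      calc (m * q) * N = ∑ _i : Fin m, q * N := by simp; ring
        _ ≤ _ := sum_le_sum fun i _ => hq i
    have h3 := Real.pow_arith_mean_le_arith_mean_pow (range N) (fun _ => (1 / N : ℝ))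
      (fun j => ∑ i, x i j) (fun _ _ => by positivity)
      (by rw [sum_const, card_range, nsmul_eq_mul]; field_simp)
      (fun j _ => sum_nonneg fun i _ => hx0 i j) k
    rw [← mul_sum, ← mul_sum] at h3
    have h4 : m * q ≤ 1 / N * ∑ j ∈ range N, ∑ i, x i j := by
      rw [one_div, inv_mul_eq_div, le_div_iff₀ hN']
      exact h2
    have h5 : (m * q) ^ k ≤ 1 / N * ∑ j ∈ range N, (∑ i, x i j) ^ k :=
      (pow_le_pow_left₀ (by positivity) h4 k).trans h3
    rw [one_div, inv_mul_eq_div, le_div_iff₀ hN'] at h5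
    exact h5
  set J := univ.filter (fun a : Fin k → Fin m => Function.Injective a) with hJ
  set J' := univ.filter (fun a : Fin k → Fin m => ¬ Function.Injective a) with hJ'
  have hJc : (m : ℝ) ^ k * (1 - (k : ℝ) ^ 2 / m) ≤ J.card := by
    rw [hJ, card_inj]; exact desc_ge m k hkm hm
  have hJJ : (J.card : ℝ) + J'.card = (m : ℝ) ^ k := by
    have h1 := Finset.card_filter_add_card_filter_not (s := (univ : Finset (Fin k → Fin m)))
      (fun a => Function.Injective a)
    rw [card_univ, Fintype.card_fun, Fintype.card_fin, Fintype.card_fin] at h1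
    exact_mod_cast h1
  have hJne : J.Nonempty := by
    refine ⟨fun i => Fin.castLE hkm i, ?_⟩
    rw [hJ, mem_filter]
    exact ⟨mem_univ _, Fin.castLE_injective hkm⟩
  have hJs : (m : ℝ) ^ k * (q ^ k - (k : ℝ) ^ 2 / m) * N ≤ ∑ a ∈ J, P a := by
    have h1 : ∑ a ∈ J, P a = ∑ a, P a - ∑ a ∈ J', P a := by
      rw [← sum_filter_add_sum_filter_not univ (fun a : Fin k → Fin m => Function.Injective a) P]
      ring
    have h2 : ∑ a ∈ J', P a ≤ J'.card * N := by
      calc ∑ a ∈ J', P a ≤ ∑ _a ∈ J', (N : ℝ) := sum_le_sum fun a _ => hP1 a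
        _ = _ := by rw [sum_const, nsmul_eq_mul]
    have h3 : (J'.card : ℝ) ≤ (m : ℝ) ^ k * ((k : ℝ) ^ 2 / m) := by
      have e : (m : ℝ) ^ k * (1 - (k : ℝ) ^ 2 / m) =
        (m : ℝ) ^ k - (m : ℝ) ^ k * ((k : ℝ) ^ 2 / m) := by ring
      rw [e] at hJc
      linarith
    have h4 := mul_le_mul_of_nonneg_right h3 hN'.le
    rw [h1]
    rw [mul_pow] at hsum
    have e2 : (m : ℝ) ^ k * (q ^ k - (k : ℝ) ^ 2 / m) * N =
      (m : ℝ) ^ k * q ^ k * N - (m : ℝ) ^ k * ((k : ℝ) ^ 2 / m) * N := by ring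
    rw [e2]
    linarith
  by_contra hcon
  push Not at hcon
  set c : ℝ := (q ^ k - (k : ℝ) ^ 2 / m) * N with hc
  have hlt : ∑ a ∈ J, P a < ∑ _a ∈ J, c :=
    sum_lt_sum_of_nonempty hJne fun a ha => hcon a (mem_filter.1 ha).2
  rw [sum_const, nsmul_eq_mul] at hlt
  have hc0 : 0 < c := by
    obtain ⟨a, ha⟩ := hJne
    exact lt_of_le_of_lt (hP0 a) (hcon a (mem_filter.1 ha).2)
  have h6 : (J.card : ℝ) ≤ (m : ℝ) ^ k := by
    have : (0 : ℝ) ≤ J'.card := Nat.cast_nonneg _
    linarith
  have h7 : (J.card : ℝ) * c ≤ (m : ℝ) ^ k * c := mul_le_mul_of_nonneg_right h6 hc0.le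
  have e3 : (m : ℝ) ^ k * (q ^ k - (k : ℝ) ^ 2 / m) * N = (m : ℝ) ^ k * c := by rw [hc]; ring
  rw [e3] at hJs
  linarith

end Pool.Agent.V1161.ZW
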