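import Pool.Agent.V1161.ZW.Dist

/-!
# Products of many functions with large means
-/

open Finset

namespace Pool.Agent.V1161.ZW

/-- among many functions with a large mean there are many families of `k` whose product has a large mean -/
theorem pattern_sum (N m k : ℕ) (hN : 0 < N) (hkm : k ≤ m) (hm : 0 < m) (x : Fin m → ℕ → ℝ)
    (hx0 : ∀ i j, 0 ≤ x i j) (hx1 : ∀ i j, x i j ≤ 1) (q : ℝ) (hq0 : 0 ≤ q)
    (hq : ∀ i, q * N ≤ ∑ j ∈ range N, x i j) :
    (m : ℝ) ^ k * (q ^ k - (k : ℝ) ^ 2 / m) * N ≤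
      ∑ a ∈ univ.filter (fun a : Fin k → Fin m => Function.Injective a),
        ∑ j ∈ range N, ∏ i, x (a i) j := by
  classical
  have hm' : (0 : ℝ) < m := by exact_mod_cast hm
  have hN' : (0 : ℝ) < N := by exact_mod_cast hN
  set P : (Fin k → Fin m) → ℝ := fun a => ∑ j ∈ range N, ∏ i, x (a i) j with hP
  have hP0 : ∀ a, 0 ≤ P a := fun a => sum_nonneg fun j _ => prod_nonneg fun i _ => hx0 _ _
  have hP1 : ∀ a, P a ≤ N := by
    intro a
    calc P a ≤ ∑ _j ∈ range N, (1 : ℝ) :=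
          sum_le_sum fun j _ => prod_le_one (fun i _ => hx0 _ _) fun i _ => hx1 _ _
      _ = N := by simp
  -- the power mean
  have hsum : (m * q) ^ k * N ≤ ∑ a, P a := by
    have e1 : ∑ a, P a = ∑ j ∈ range N, (∑ i, x i j) ^ k := by
      rw [hP, sum_comm]
      apply sum_congr rfl
      intro j _
      rw [Fintype.sum_pow]
    rw [e1]
    have h2 : (m * q) * N ≤ ∑ j ∈ range N, ∑ i, x i j := by
      rw [sum_comm]
      calc (m * q) * N = ∑ _i : Fin m, q * N := by simp; ring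
        _ ≤ _ := sum_le_sum fun i _ => hq i
    have h3 := Real.pow_arith_mean_le_arith_mean_pow (range N) (fun _ => (1 / N : ℝ))
      (fun j => ∑ i, x i j) (fun _ _ => by positivity)
      (by rw [sum_const, card_range, nsmul_eq_mul]; field_simp)
      (fun j _ => sum_nonneg fun i _ => hx0 i j) k
    rw [← mul_sum, ← mul_sum] at h3
    have h4 : m * q ≤ 1 / N * ∑ j ∈ range N, ∑ i, x i j := by
      rw [one_div, inv_mul_eq_div, le_div_iff₀ hN']
      exact h2
    have h5 : (m * q) ^ k ≤ 1 / N * ∑ j ∈ range N, (∑ i, x i j) ^ k :=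
      (pow_le_pow_left₀ (by positivity) h4 k).trans h3
    rw [one_div, inv_mul_eq_div, le_div_iff₀ hN'] at h5
    exact h5
  set J := univ.filter (fun a : Fin k → Fin m => Function.Injective a) with hJ
  set J' := univ.filter (fun a : Fin k → Fin m => ¬ Function.Injective a) with hJ'
  have hJc : (m : ℝ) ^ k * (1 - (k : ℝ) ^ 2 / m) ≤ J.card := by
    rw [hJ, card_inj]; exact desc_ge m k hkm hm
  have hJJ : (J.card : ℝ) + J'.card = (m : ℝ) ^ k := by
    have h1 := Finset.card_filter_add_card_filter_not (s := (univ : Finset (Fin k → Fin m)))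
      (fun a => Function.Injective a)
    rw [card_univ, Fintype.card_fun, Fintype.card_fin, Fintype.card_fin] at h1
    exact_mod_cast h1
  have h1 : ∑ a ∈ J, P a = ∑ a, P a - ∑ a ∈ J', P a := by
    rw [← sum_filter_add_sum_filter_not univ (fun a : Fin k → Fin m => Function.Injective a) P]
    ring
  have h2 : ∑ a ∈ J', P a ≤ J'.card * N := by
    calc ∑ a ∈ J', P a ≤ ∑ _a ∈ J', (N : ℝ) := sum_le_sum fun a _ => hP1 a
      _ = _ := by rw [sum_const, nsmul_eq_mul]
  have h3 : (J'.card : ℝ) ≤ (m : ℝ) ^ k * ((k : ℝ) ^ 2 / m) := by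
    have e : (m : ℝ) ^ k * (1 - (k : ℝ) ^ 2 / m) =
      (m : ℝ) ^ k - (m : ℝ) ^ k * ((k : ℝ) ^ 2 / m) := by ring
    rw [e] at hJc
    linarith
  have h4 := mul_le_mul_of_nonneg_right h3 hN'.le
  rw [h1]
  rw [mul_pow] at hsum
  have e2 : (m : ℝ) ^ k * (q ^ k - (k : ℝ) ^ 2 / m) * N =
    (m : ℝ) ^ k * q ^ k * N - (m : ℝ) ^ k * ((k : ℝ) ^ 2 / m) * N := by ring
  rw [e2]
  linarith

lemma card_inj_le (m k : ℕ) :
    ((univ.filter (fun a : Fin k → Fin m => Function.Injective a)).card : ℝ) ≤ (m : ℝ) ^ k := by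
  have h1 := card_le_univ (univ.filter (fun a : Fin k → Fin m => Function.Injective a))
  rw [Fintype.card_fun, Fintype.card_fin, Fintype.card_fin] at h1
  exact_mod_cast h1

lemma inj_nonempty (m k : ℕ) (hkm : k ≤ m) :
    (univ.filter (fun a : Fin k → Fin m => Function.Injective a)).Nonempty :=
  ⟨fun i => Fin.castLE hkm i, mem_filter.2 ⟨mem_univ _, Fin.castLE_injective hkm⟩⟩

end Pool.Agent.V1161.ZW
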