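import Pool.Agent.V1161.ZW.Core
import Pool.Agent.V1161.ZW.Pat

/-!
# Correlations of the numbers of simple critical zeros in windows at many places
-/

open Complex Filter Topology Set MeasureTheory
open scoped BigOperators

namespace Pool.Agent.V1161.ZW

open H370 Pool.Agent.TH342.CV

lemma nw_eq {F : ℂ → ℂ} (hF : GoodL F) {A B w b t : ℝ} (hA : 1 ≤ A + b) (h1 : A ≤ t)
    (h2 : t ≤ B) : (cnt F (t + b) (t + b + w) : ℝ) =
      ∑ x ∈ (simple_finite hF (T1 := A + b) (T2 := B + b + w) hA).toFinset,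
        (Set.Ico (x - b - w) (x - b)).indicator (fun _ => (1 : ℝ)) t := by
  classical
  set X := (simple_finite hF (T1 := A + b) (T2 := B + b + w) hA).toFinset with hX
  have e1 : {x : ℝ | t + b < x ∧ x ≤ t + b + w ∧ SimpleAt F x} =
      ((X.filter (fun x => t ∈ Set.Ico (x - b - w) (x - b)) : Finset ℝ) : Set ℝ) := by
    ext x
    simp only [Finset.coe_filter, hX, Set.Finite.mem_toFinset, Set.mem_ofPred_eq, Set.mem_Ico]
    constructor
    · rintro ⟨a1, a2, a3⟩
      exact ⟨⟨by linarith, by linarith, a3⟩, by linarith, by linarith⟩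
    · rintro ⟨⟨_, _, a3⟩, a4, a5⟩
      exact ⟨by linarith, by linarith, a3⟩
  unfold cnt
  rw [e1, Set.ncard_coe_finset, Finset.card_filter]
  push_cast
  apply Finset.sum_congr rfl
  intro x _
  rw [Set.indicator_apply]

lemma prod_int {k : ℕ} {F : Fin k → ℂ → ℂ} (hF : ∀ i, GoodL (F i)) {A B w : ℝ} {b : Fin k → ℝ}
    (hA : ∀ i, 1 ≤ A + b i) (hAB : A ≤ B) :
    IntervalIntegrable (fun t => ∏ i, (cnt (F i) (t + b i) (t + b i + w) : ℝ)) volume A B := by
  classical
  rw [intervalIntegrable_iff_integrableOn_Icc_of_le hAB]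
  have h1 : IntegrableOn (fun t => ∏ i, ∑ x ∈ (simple_finite (hF i) (T1 := A + b i)
      (T2 := B + b i + w) (hA i)).toFinset,
        (Set.Ico (x - b i - w) (x - b i)).indicator (fun _ => (1 : ℝ)) t) (Set.Icc A B) := by
    apply Measure.integrableOn_of_bounded (M := ∏ i, (((simple_finite (hF i) (T1 := A + b i)
      (T2 := B + b i + w) (hA i)).toFinset.card : ℕ) : ℝ)) measure_Icc_lt_top.ne
    · apply Measurable.aestronglyMeasurable
      apply Finset.measurable_prod
      intro i _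
      apply Finset.measurable_sum
      intro x _
      exact measurable_const.indicator measurableSet_Ico
    · filter_upwards with t
      rw [norm_prod]
      apply Finset.prod_le_prod (fun i _ => norm_nonneg _)
      intro i _
      rw [Real.norm_of_nonneg (Finset.sum_nonneg fun x _ =>
        Set.indicator_nonneg (fun _ _ => zero_le_one) _)]
      calc _ ≤ ∑ _x ∈ (simple_finite (hF i) (T1 := A + b i) (T2 := B + b i + w) (hA i)).toFinset,
            (1 : ℝ) := Finset.sum_le_sum fun x _ => Set.indicator_le_self' (fun _ _ => zero_le_one) _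
        _ = _ := by simp
  refine h1.congr_fun (fun t ht => ?_) measurableSet_Icc
  exact Finset.prod_congr rfl fun i _ => (nw_eq (hF i) (hA i) ht.1 ht.2).symm

lemma ii_sum {ι : Type*} (s : Finset ι) (f : ι → ℝ → ℝ) {a b : ℝ}
    (h : ∀ i ∈ s, IntervalIntegrable (f i) volume a b) :
    IntervalIntegrable (fun t => ∑ i ∈ s, f i t) volume a b := by
  have h1 := IntervalIntegrable.sum s h
  have h2 : (∑ i ∈ s, f i) = fun t => ∑ i ∈ s, f i t := by
    funext t
    simp
  rwa [h2] at h1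

/-- the correlations of the numbers of simple critical zeros in windows, at some `k` of many places -/
theorem cont (k : ℕ) {ε : ℝ} (hε : 0 < ε) : ∃ M : ℕ, ∃ ℓ₀ κ δ : ℝ, 0 < ℓ₀ ∧ 0 < κ ∧ 0 < δ ∧ δ < 1 ∧
    ∀ (r : ℕ) (F : Fin r → ℂ → ℂ), (∀ i, GoodL (F i)) → ∃ T₀ : ℝ, 10 ≤ T₀ ∧ ∀ T : ℝ, T₀ ≤ T →
      ∀ ℓ : ℝ, ℓ₀ ≤ ℓ → ℓ ≤ κ * Real.log T → ∀ H : ℝ, T ^ (1 - δ) ≤ H → H ≤ T →
      ∀ m : ℕ, M ≤ m → ∀ (c : Fin m → Fin r) (b : Fin m → ℝ), (∀ i, 0 ≤ b i ∧ b i ≤ T ^ (1 + δ)) →
      ∃ a : Fin k → Fin m, Function.Injective a ∧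
        ((2 - cMTinv) ^ k - ε) * (ℓ ^ k * H) ≤ ∫ t in T..(T + H), ∏ i,
          (cnt (F (c (a i))) (t + b (a i)) (t + b (a i) + ℓ * (2 * Real.pi / Real.log T)) : ℝ) := by
  classical
  have hpi := Real.pi_pos
  have hcg := cMTinv_gt_one
  have hcn := H370.Expl.cMTinv_num
  set p : ℝ := 2 - cMTinv with hp
  have hp0 : 1 / 2 < p := by norm_num at hcn ⊢; linarith
  have hp1 : p < 1 := by linarith
  -- the parameters
  obtain ⟨e, he0, he1, heq⟩ : ∃ e : ℝ, 0 < e ∧ e ≤ 1 / 4 ∧ p ^ k - ε / 4 ≤ ((p - e) / (1 + e)) ^ k := by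
    have hc : ContinuousAt (fun x : ℝ => ((p - x) / (1 + x)) ^ k) 0 := by
      apply ContinuousAt.pow
      apply ContinuousAt.div <;> first | fun_prop | norm_num
    have h0 : (fun x : ℝ => ((p - x) / (1 + x)) ^ k) 0 = p ^ k := by simp
    have h1 : ∀ᶠ x in 𝓝 (0 : ℝ), p ^ k - ε / 4 < ((p - x) / (1 + x)) ^ k := by
      apply hc.eventually (lt_mem_nhds _)
      rw [h0]; linarith
    rw [Metric.eventually_nhds_iff] at h1
    obtain ⟨ρ, hρ0, hρ⟩ := h1
    refine ⟨min (ρ / 2) (1 / 4), by positivity, min_le_right _ _, (hρ ?_).le⟩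
    rw [Real.dist_eq, sub_zero, abs_of_pos (by positivity)]
    exact (min_le_left _ _).trans_lt (by linarith)
  obtain ⟨M0, hM0⟩ := exists_nat_ge (4 * (k : ℝ) ^ 2 / ε)
  obtain ⟨g₀, hg₀, κ, hκ, d, hd0, hd1, hcore⟩ := coreU he0 (by linarith)
  set δ : ℝ := d / 2 with hδ
  have hδ0 : 0 < δ := by positivity
  have hδ1 : δ < 1 := by rw [hδ]; linarith
  have hd2 : d = 2 * δ := by rw [hδ]; ring
  refine ⟨max M0 (k + 1), g₀, κ, δ, hg₀, hκ, hδ0, hδ1, fun r F hF => ?_⟩
  choose T1 hT1 hT1' using fun i => hcore (F i) (hF i)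
  obtain ⟨T2, hT2⟩ := (Set.finite_range T1).bddAbove
  have hT2' : ∀ i, T1 i ≤ T2 := fun i => hT2 ⟨i, rfl⟩
  set W : ℝ := 2 * Real.pi * κ with hW
  have hW0 : 0 < W := by positivity
  have ev1 : ∀ᶠ T : ℝ in atTop, 2 ≤ T ^ δ := (tendsto_rpow_atTop hδ0).eventually_ge_atTop 2
  have ev2 : ∀ᶠ T : ℝ in atTop, W / min (1 / 2) (ε / 4) ≤ T ^ (1 - δ) :=
    (tendsto_rpow_atTop (by linarith)).eventually_ge_atTop _
  obtain ⟨T3, hT3⟩ := (ev1.and ev2).exists_forall_of_atTop
  refine ⟨max 10 (max (max T2 T3) W), le_max_left _ _,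
    fun T hT ℓ hℓ1 hℓ2 H hH1 hH2 m hm c b hb => ?_⟩
  have hT10 : 10 ≤ T := (le_max_left _ _).trans hT
  have hTT2 : T2 ≤ T := ((le_max_left _ _).trans ((le_max_left _ _).trans (le_max_right _ _))).trans hT
  have hTT3 := hT3 T (((le_max_right _ _).trans ((le_max_left _ _).trans (le_max_right _ _))).trans hT)
  have hTW : W ≤ T := ((le_max_right _ _).trans (le_max_right _ _)).trans hT
  have hT0 : 0 < T := by linarith
  have hlog : 0 < Real.log T := Real.log_pos (by linarith)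
  have hkm : k + 1 ≤ m := (le_max_right _ _).trans hm
  have hMm : (M0 : ℝ) ≤ m := by exact_mod_cast (le_max_left _ _).trans hm
  have hm0 : (0 : ℝ) < m := by
    have : 0 < m := by omega
    exact_mod_cast this
  set w : ℝ := ℓ * (2 * Real.pi / Real.log T) with hw
  have hℓ0 : 0 < ℓ := hg₀.trans_le hℓ1
  have hw0 : 0 < w := by positivity
  have hwW : w ≤ W := by
    rw [hw, hW]
    calc ℓ * (2 * Real.pi / Real.log T) ≤ (κ * Real.log T) * (2 * Real.pi / Real.log T) :=
          mul_le_mul_of_nonneg_right hℓ2 (by positivity)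
      _ = 2 * Real.pi * κ := by field_simp
  have hmin : 0 < min (1 / 2) (ε / 4) := by positivity
  have hWT : W ≤ min (1 / 2) (ε / 4) * T ^ (1 - δ) := by
    have := hTT3.2
    rw [div_le_iff₀ hmin] at this
    linarith
  have hTp : 0 < T ^ (1 - δ) := Real.rpow_pos_of_pos hT0 _
  have hW1 : W ≤ 1 / 2 * T ^ (1 - δ) :=
    hWT.trans (mul_le_mul_of_nonneg_right (min_le_left _ _) hTp.le)
  have hW2 : W ≤ ε / 4 * H := by
    refine hWT.trans ((mul_le_mul_of_nonneg_right (min_le_right _ _) hTp.le).trans ?_)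
    exact mul_le_mul_of_nonneg_left hH1 (by positivity)
  have hH0 : 0 < H := hTp.trans_le hH1
  have hTd : T ^ (1 - d) * 2 ≤ T ^ (1 - δ) := by
    have e1 : T ^ (1 - δ) = T ^ (1 - d) * T ^ δ := by
      rw [← Real.rpow_add hT0]; congr 1; rw [hd2]; ring
    rw [e1]
    exact mul_le_mul_of_nonneg_left hTT3.1 (Real.rpow_nonneg hT0.le _)
  have hTd' : T ^ (1 + δ) + T ≤ T ^ (1 + d) := by
    have e1 : T ^ (1 + d) = T ^ (1 + δ) * T ^ δ := by
      rw [← Real.rpow_add hT0]; congr 1; rw [hd2]; ring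
    have e2 : T ≤ T ^ (1 + δ) := by
      conv_lhs => rw [← Real.rpow_one T]
      exact Real.rpow_le_rpow_of_exponent_le (by linarith) (by linarith)
    have e3 : T ^ (1 + δ) * 2 ≤ T ^ (1 + δ) * T ^ δ :=
      mul_le_mul_of_nonneg_left hTT3.1 (Real.rpow_nonneg hT0.le _)
    rw [e1]; linarith
  -- the number of windows
  set N : ℕ := ⌊H / w⌋₊ with hN
  have hN1 : (N : ℝ) * w ≤ H := by
    have := Nat.floor_le (div_nonneg hH0.le hw0.le)
    rwa [← hN, le_div_iff₀ hw0] at this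
  have hN2 : H - w < N * w := by
    have := Nat.lt_floor_add_one (H / w)
    rw [← hN, div_lt_iff₀ hw0] at this
    linarith
  have hNp : 0 < N := by
    have h1 : 0 < (N : ℝ) * w := by linarith
    have h2 : (0 : ℝ) < N := by
      by_contra h3
      push Not at h3
      have := mul_nonpos_of_nonpos_of_nonneg h3 hw0.le
      linarith
    exact_mod_cast h2
  have hN3 : T ^ (1 - d) ≤ N * w := by linarith
  -- the correlation functions
  set f : (Fin k → Fin m) → ℝ → ℝ := fun a t => ∏ i,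
    (cnt (F (c (a i))) (t + b (a i)) (t + b (a i) + w) : ℝ) with hf
  have hf0 : ∀ a t, 0 ≤ f a t := fun a t => Finset.prod_nonneg fun i _ => Nat.cast_nonneg _
  have hint : ∀ a A B, T ≤ A → A ≤ B → IntervalIntegrable (f a) volume A B := by
    intro a A B h1 h2
    exact prod_int (F := fun i => F (c (a i))) (fun i => hF _) (b := fun i => b (a i)) (w := w)
      (fun i => by linarith [(hb (a i)).1]) h2
  set J := Finset.univ.filter (fun a : Fin k → Fin m => Function.Injective a) with hJ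
  rcases le_or_gt (p ^ k - ε) 0 with hneg | hpos
  · obtain ⟨a, ha⟩ := inj_nonempty m k (by omega)
    refine ⟨a, (Finset.mem_filter.1 ha).2, ?_⟩
    have h1 : 0 ≤ ∫ t in T..(T + H), f a t :=
      intervalIntegral.integral_nonneg (by linarith) fun t _ => hf0 a t
    have h2 : (p ^ k - ε) * (ℓ ^ k * H) ≤ 0 :=
      mul_nonpos_of_nonpos_of_nonneg hneg (by positivity)
    exact h2.trans h1
  set q : ℝ := (p - e) / (1 + e) with hq
  have hq0 : 0 ≤ q := div_nonneg (by linarith) (by linarith)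
  set c₀ : ℝ := q ^ k - (k : ℝ) ^ 2 / m with hc₀
  have hc₀p : p ^ k - ε / 2 ≤ c₀ := by
    have h1 : (k : ℝ) ^ 2 / m ≤ ε / 4 := by
      rw [div_le_iff₀ hm0]
      have h2 : 4 * (k : ℝ) ^ 2 / ε ≤ m := hM0.trans hMm
      rw [div_le_iff₀ hε] at h2
      linarith
    rw [hc₀]; linarith
  have hc₀0 : 0 < c₀ := by linarith
  -- the pointwise inequality
  have hpt : ∀ s ∈ Set.Icc (0 : ℝ) w, ℓ ^ k * ((m : ℝ) ^ k * c₀ * N) ≤
      ∑ a ∈ J, ∑ j ∈ Finset.range N, f a (T + j * w + s) := by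
    intro s hs
    set n : Fin m → ℕ → ℝ := fun i j =>
      (cnt (F (c i)) (T + j * w + s + b i) (T + j * w + s + b i + w) : ℝ) with hn
    have hn0 : ∀ i j, 0 ≤ n i j := fun i j => Nat.cast_nonneg _
    have hK0 : 0 < (1 + e) * ℓ := by positivity
    set x : Fin m → ℕ → ℝ := fun i j => min (n i j) ((1 + e) * ℓ) / ((1 + e) * ℓ) with hx
    have hx0 : ∀ i j, 0 ≤ x i j := fun i j => div_nonneg (le_min (hn0 i j) hK0.le) hK0.le
    have hx1 : ∀ i j, x i j ≤ 1 := fun i j => (div_le_one hK0).2 (min_le_right _ _)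
    have hxs : ∀ i, q * N ≤ ∑ j ∈ Finset.range N, x i j := by
      intro i
      have h1 := hT1' (c i) T ((hT2' _).trans hTT2) ℓ hℓ1 hℓ2 (b i + s)
        (add_nonneg (hb i).1 hs.1) (by linarith [(hb i).2, hs.2]) N hN3 (hN1.trans hH2)
      have h2 : ∑ j ∈ Finset.range N, x i j =
          (∑ j ∈ Finset.range N, min (n i j) ((1 + e) * ℓ)) / ((1 + e) * ℓ) := by
        rw [Finset.sum_div]
      rw [h2, le_div_iff₀ hK0]
      have h3 : q * N * ((1 + e) * ℓ) = (p - e) * (ℓ * N) := by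
        rw [hq]; field_simp
      rw [h3]
      refine h1.trans (le_of_eq (Finset.sum_congr rfl fun j _ => ?_))
      simp only [hn]
      have e1 : T + (b i + s) + j * w = T + j * w + s + b i := by ring
      have e2 : T + (b i + s) + (j + 1) * w = T + j * w + s + b i + w := by ring
      rw [← hw, e1, e2]
    have h4 := pattern_sum N m k hNp (by omega) (by omega) x hx0 hx1 q hq0 hxs
    refine (mul_le_mul_of_nonneg_left h4 (by positivity : 0 ≤ ℓ ^ k)).trans ?_
    rw [Finset.mul_sum]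
    apply Finset.sum_le_sum
    intro a _
    rw [Finset.mul_sum]
    apply Finset.sum_le_sum
    intro j _
    have e3 : ℓ ^ k * ∏ i, x (a i) j = ∏ i, (ℓ * x (a i) j) := by
      rw [Finset.prod_mul_distrib, Finset.prod_const, Finset.card_univ, Fintype.card_fin]
    rw [e3]
    apply Finset.prod_le_prod (fun i _ => mul_nonneg hℓ0.le (hx0 _ _))
    intro i _
    simp only [hx]
    rw [mul_div_assoc', div_le_iff₀ hK0]
    have h5 : min (n (a i) j) ((1 + e) * ℓ) ≤ n (a i) j := min_le_left _ _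
    have h6 : ℓ ≤ (1 + e) * ℓ := by nlinarith
    calc ℓ * min (n (a i) j) ((1 + e) * ℓ) ≤ ℓ * n (a i) j := mul_le_mul_of_nonneg_left h5 hℓ0.le
      _ ≤ ((1 + e) * ℓ) * n (a i) j := mul_le_mul_of_nonneg_right h6 (hn0 _ _)
      _ = n (a i) j * ((1 + e) * ℓ) := mul_comm _ _
  -- integration
  have hTj : ∀ j : ℕ, T ≤ T + j * w := fun j => by
    have : 0 ≤ (j : ℝ) * w := by positivity
    linarith
  have hsplit : ∀ a, ∑ j ∈ Finset.range N, ∫ s in (0 : ℝ)..w, f a (T + j * w + s) =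
      ∫ t in T..(T + N * w), f a t := by
    intro a
    have h1 := intervalIntegral.sum_integral_adjacent_intervals (f := f a) (μ := volume)
      (a := fun j : ℕ => T + j * w) (n := N) (fun j _ => hint a _ _ (hTj j) (by
        push_cast; linarith))
    simp only [Nat.cast_zero, zero_mul, add_zero] at h1
    rw [← h1]
    apply Finset.sum_congr rfl
    intro j _
    rw [intervalIntegral.integral_comp_add_left]
    congr 1
    · ring
    · push_cast; ring
  have hI : w * (ℓ ^ k * ((m : ℝ) ^ k * c₀ * N)) ≤ ∑ a ∈ J, ∫ t in T..(T + H), f a t := by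
    have hii : ∀ a (j : ℕ), IntervalIntegrable (fun s => f a (T + j * w + s)) volume 0 w := by
      intro a j
      have h1 := (hint a (T + j * w) (T + j * w + w) (hTj j) (by linarith)).comp_add_left (T + j * w)
      simpa using h1
    have h1 : ∫ _s in (0 : ℝ)..w, ℓ ^ k * ((m : ℝ) ^ k * c₀ * N) ≤
        ∫ s in (0 : ℝ)..w, ∑ a ∈ J, ∑ j ∈ Finset.range N, f a (T + j * w + s) := by
      apply intervalIntegral.integral_mono_on hw0.le
      · exact intervalIntegrable_const
      · exact ii_sum _ _ (fun a _ => ii_sum _ _ (fun j _ => hii a j))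
      · exact hpt
    rw [intervalIntegral.integral_const, sub_zero, smul_eq_mul] at h1
    refine h1.trans ?_
    rw [intervalIntegral.integral_finsetSum (fun a _ => ii_sum _ _ (fun j _ => hii a j))]
    apply Finset.sum_le_sum
    intro a _
    rw [intervalIntegral.integral_finsetSum (fun j _ => hii a j), hsplit a]
    have h2 : T + N * w ≤ T + H := by linarith
    have h3 : T ≤ T + N * w := hTj N
    rw [← intervalIntegral.integral_add_adjacent_intervals (hint a T (T + N * w) le_rfl h3)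
      (hint a (T + N * w) (T + H) h3 h2)]
    have h4 : 0 ≤ ∫ t in (T + N * w)..(T + H), f a t :=
      intervalIntegral.integral_nonneg h2 fun t _ => hf0 a t
    linarith
  -- the choice of the places
  by_contra hcon
  push Not at hcon
  have hlt : ∑ a ∈ J, ∫ t in T..(T + H), f a t < ∑ _a ∈ J, (p ^ k - ε) * (ℓ ^ k * H) :=
    Finset.sum_lt_sum_of_nonempty (inj_nonempty m k (by omega))
      fun a ha => hcon a (Finset.mem_filter.1 ha).2
  rw [Finset.sum_const, nsmul_eq_mul] at hlt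
  have hJle : (J.card : ℝ) ≤ (m : ℝ) ^ k := card_inj_le m k
  have h8 : (J.card : ℝ) * ((p ^ k - ε) * (ℓ ^ k * H)) ≤
      (m : ℝ) ^ k * ((p ^ k - ε) * (ℓ ^ k * H)) :=
    mul_le_mul_of_nonneg_right hJle (by positivity)
  have h9 : (p ^ k - ε) * H ≤ c₀ * (N * w) := by
    have hpk : p ^ k ≤ 1 := pow_le_one₀ (by linarith) hp1.le
    have h10 : (p ^ k - ε / 2) * (H - ε / 4 * H) ≤ c₀ * (N * w) :=
      mul_le_mul hc₀p (by linarith) (by
        rcases le_total (ε / 4) 1 with h | h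
        · have := mul_le_mul_of_nonneg_right h hH0.le
          linarith
        · exfalso; linarith) hc₀0.le
    refine le_trans ?_ h10
    have h11 : (p ^ k - ε / 2) * (H - ε / 4 * H) =
      (p ^ k - ε / 2 - (p ^ k - ε / 2) * (ε / 4)) * H := by ring
    rw [h11]
    apply mul_le_mul_of_nonneg_right _ hH0.le
    have h12 : (p ^ k - ε / 2) * (ε / 4) ≤ 1 * (ε / 4) :=
      mul_le_mul_of_nonneg_right (by linarith) (by positivity)
    linarith
  have h13 : (m : ℝ) ^ k * ((p ^ k - ε) * (ℓ ^ k * H)) ≤ w * (ℓ ^ k * ((m : ℝ) ^ k * c₀ * N)) := by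
    have e1 : (m : ℝ) ^ k * ((p ^ k - ε) * (ℓ ^ k * H)) =
      ((m : ℝ) ^ k * ℓ ^ k) * ((p ^ k - ε) * H) := by ring
    have e2 : w * (ℓ ^ k * ((m : ℝ) ^ k * c₀ * N)) =
      ((m : ℝ) ^ k * ℓ ^ k) * (c₀ * (N * w)) := by ring
    rw [e1, e2]
    exact mul_le_mul_of_nonneg_left h9 (by positivity)
  linarith

end Pool.Agent.V1161.ZW
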