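import Pool.Agent.TH342.CV.Core

/-!
# Truncated counts of the simple critical zeros in cells, uniformly in the length of the cells

The proof is that of `Pool.Agent.TH342.CV.core` (starting files); here the length `g` of the cells (in mean
spacings) is arbitrary between a constant and a small multiple of `log T`.
-/

open Complex Filter Topology Set MeasureTheory
open scoped BigOperators ComplexConjugate

namespace Pool.Agent.V1161.ZW

open H370 Pool.Agent.TH342.CV

/-- the truncated counts -/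
theorem coreU {ε : ℝ} (hε : 0 < ε) (hε1 : ε ≤ 1) : ∃ g₀ : ℝ, 0 < g₀ ∧ ∃ κ : ℝ, 0 < κ ∧
    ∃ d : ℝ, 0 < d ∧ d < 1 ∧
    ∀ F : ℂ → ℂ, GoodL F → ∃ T0 : ℝ, 10 ≤ T0 ∧ ∀ T : ℝ, T0 ≤ T → ∀ g : ℝ, g₀ ≤ g →
      g ≤ κ * Real.log T → ∀ b : ℝ, 0 ≤ b → b ≤ T ^ (1 + d) →
      ∀ N : ℕ, T ^ (1 - d) ≤ N * (g * (2 * Real.pi / Real.log T)) →
        N * (g * (2 * Real.pi / Real.log T)) ≤ T →
      (2 - cMTinv - ε) * (g * N) ≤ ∑ k ∈ Finset.range N,
        min (cnt F (T + b + k * (g * (2 * Real.pi / Real.log T)))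
          (T + b + (k + 1) * (g * (2 * Real.pi / Real.log T))) : ℝ) ((1 + ε) * g) := by
  classical
  have hpi := Real.pi_pos
  have hcg := cMTinv_gt_one
  -- parameters
  set η : ℝ := ε / 24 with hη
  have hη0 : 0 < η := by rw [hη]; positivity
  have hη1 : η ≤ 1 := by rw [hη]; linarith
  obtain ⟨R, hR⟩ := cell hη0 hη1
  have hR0 : (0 : ℝ) ≤ R := Nat.cast_nonneg R
  set g₀ : ℝ := (2 * R + 3) * 24 / ε with hg₀
  have hg₀0 : 0 < g₀ := by rw [hg₀]; positivity
  -- choice of the exponent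
  obtain ⟨ρ, hρ0, hρ⟩ : ∃ ρ : ℝ, 0 < ρ ∧ ∀ θ : ℝ, |θ - 1| < ρ → H295Iso.c0 θ ≤ cMTinv + ε / 8 := by
    have hcont := H295Iso.c0_cont (h := 1) one_pos
    have h1 : ∀ᶠ x in 𝓝 (1 : ℝ), H295Iso.c0 x < H295Iso.c0 1 + ε / 8 :=
      hcont.eventually (gt_mem_nhds (by linarith))
    rw [Metric.eventually_nhds_iff] at h1
    obtain ⟨ρ, hρ0, hρ⟩ := h1
    refine ⟨ρ, hρ0, fun θ hθ => ?_⟩
    have := hρ (y := θ) (by rw [Real.dist_eq]; exact hθ)
    rw [Pool.Agent.H24R3.PairsShort.c0_one] at this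
    exact this.le
  set d0 : ℝ := min (ρ / 3) (ε / 24) with hd0
  have hd00 : 0 < d0 := by rw [hd0]; positivity
  have hd01 : d0 ≤ ε / 24 := min_le_right _ _
  have hd02 : d0 ≤ ρ / 3 := min_le_left _ _
  have hcθ : H295Iso.c0 (1 - d0 - d0) ≤ cMTinv + ε / 8 := by
    apply hρ
    rw [show 1 - d0 - d0 - 1 = -(2 * d0) by ring, abs_neg, abs_of_pos (by linarith)]
    linarith
  set d : ℝ := d0 / 4 with hd
  have hdpos : 0 < d := by rw [hd]; positivity
  have hd4 : d0 = 4 * d := by rw [hd]; ring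
  have hdε : d ≤ ε / 96 := by rw [hd]; linarith
  refine ⟨g₀, hg₀0, η / 2 / (2 * Real.pi), by positivity, d, hdpos, by linarith, fun F hF => ?_⟩
  set η' : ℝ := ε / 200 with hη'
  have hη'0 : 0 < η' := by rw [hη']; positivity
  obtain ⟨T1, hT1, hPC⟩ := H295Iso.pairShort hF (1 - d0) d0 η' hd00 (by linarith) (by linarith) hη'0
  -- large `T`
  have htop : Tendsto (fun T : ℝ => T ^ d) atTop atTop := tendsto_rpow_atTop hdpos
  obtain ⟨T2, hT2⟩ := (htop.eventually_ge_atTop 2).exists_forall_of_atTop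
  obtain ⟨T3, hT3⟩ := (Real.tendsto_log_atTop.eventually_ge_atTop
    (1 : ℝ)).exists_forall_of_atTop
  refine ⟨max (max T1 T2) (max T3 10), (le_max_right _ _).trans (le_max_right _ _),
    fun T hTT g hgg hgκ b hb0 hbT N hN1 hN2 => ?_⟩
  have hg0 : 0 < g := hg₀0.trans_le hgg
  have hgε : 2 * R + 3 ≤ g * (ε / 24) := by
    have h1 : 2 * R + 3 = g₀ * (ε / 24) := by rw [hg₀]; field_simp
    rw [h1]
    exact mul_le_mul_of_nonneg_right hgg (by positivity)
  have hTT1 : T1 ≤ T := ((le_max_left _ _).trans (le_max_left _ _)).trans hTT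
  have hTd := hT2 T (((le_max_right _ _).trans (le_max_left _ _)).trans hTT)
  have hTT3 := hT3 T (((le_max_left _ _).trans (le_max_right _ _)).trans hTT)
  have hT10 : 10 ≤ T := ((le_max_right _ _).trans (le_max_right _ _)).trans hTT
  have hT0 : 0 < T := by linarith
  have hlog1 : 1 ≤ Real.log T := hTT3
  have hlog : 0 < Real.log T := by linarith
  have hlogg : g * (2 * Real.pi) / (η / 2) ≤ Real.log T := by
    rw [div_le_iff₀ (by positivity)]
    have h1 := mul_le_mul_of_nonneg_right hgκ (by positivity : 0 ≤ 2 * Real.pi)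
    have h2 : η / 2 / (2 * Real.pi) * Real.log T * (2 * Real.pi) = Real.log T * (η / 2) := by
      field_simp
    linarith
  set σ : ℝ := 2 * Real.pi / Real.log T with hσ
  have hσ0 : 0 < σ := by positivity
  set w : ℝ := g * σ with hw
  have hw0 : 0 < w := by positivity
  set H : ℝ := N * w with hH
  -- the shifted interval
  set T' : ℝ := T + b with hT'
  have hTT' : T ≤ T' := by rw [hT']; linarith
  have hTa : T' ≤ T ^ (1 + 2 * d) := by
    have h1 : T ≤ T ^ (1 + d) := by
      conv_lhs => rw [← Real.rpow_one T]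
      exact Real.rpow_le_rpow_of_exponent_le (by linarith) (by linarith)
    have h2 : T ^ (1 + 2 * d) = T ^ (1 + d) * T ^ d := by
      rw [← Real.rpow_add hT0]; congr 1; ring
    rw [h2, hT']
    have h3 : 0 ≤ T ^ (1 + d) := Real.rpow_nonneg hT0.le _
    have h4 : T ^ (1 + d) * 2 ≤ T ^ (1 + d) * T ^ d := mul_le_mul_of_nonneg_left hTd h3
    linarith
  have hpow : T' ^ (1 - d0) ≤ H := by
    refine le_trans ?_ hN1
    calc T' ^ (1 - d0) ≤ (T ^ (1 + 2 * d)) ^ (1 - d0) :=
          Real.rpow_le_rpow (by linarith) hTa (by linarith)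
      _ = T ^ ((1 + 2 * d) * (1 - d0)) := by rw [← Real.rpow_mul hT0.le]
      _ ≤ T ^ (1 - d) := by
          apply Real.rpow_le_rpow_of_exponent_le (by linarith)
          rw [hd4]
          have : 0 ≤ d * d := by positivity
          have e : (1 + 2 * d) * (1 - 4 * d) = 1 - 2 * d - 8 * (d * d) := by ring
          rw [e]; linarith
  have hlogT' : Real.log T ≤ Real.log T' := Real.log_le_log hT0 hTT'
  have hlogT'2 : Real.log T' ≤ (1 + 2 * d) * Real.log T := by
    rw [← Real.log_rpow hT0]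
    exact Real.log_le_log (by linarith) hTa
  have hlog' : 0 < Real.log T' := by linarith
  obtain ⟨U1, U2, hU1, hU1', hU2, hU2', hNN, hQQ⟩ := hPC T' (by linarith) H hpow (by linarith)
  have hH0 : 0 ≤ H := by rw [hH]; positivity
  set M : ℝ := H / (2 * Real.pi) * Real.log T' with hM
  have hM0 : 0 ≤ M := by positivity
  have hM1 : H * Real.log T' / (2 * Real.pi) = M := by rw [hM]; ring
  have hM2 : H * Real.log T' = 2 * Real.pi * M := by rw [hM]; field_simp
  rw [hM1] at hNN hQQ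
  rw [hM2] at hNN
  have hMg : g * N ≤ M := by
    have e : g * N = H / (2 * Real.pi) * Real.log T := by
      rw [hH, hw, hσ]; field_simp
    rw [e, hM]
    exact mul_le_mul_of_nonneg_left hlogT' (by positivity)
  have hU : 1 ≤ U1 := by linarith
  set Λ : ℝ := (1 - d0 - d0) * Real.log T' with hΛ
  have hΛ0 : 0 < Λ := mul_pos (by linarith) hlog'
  have hwη : w ^ 2 ≤ η / 2 := by
    have h1 : w ≤ η / 2 := by
      rw [hw, hσ, mul_div_assoc', div_le_iff₀ hlog]
      rw [div_le_iff₀ (by positivity)] at hlogg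
      linarith
    have h2 : η / 2 ≤ 1 := by linarith
    calc w ^ 2 = w * w := sq w
      _ ≤ (η / 2) * 1 := mul_le_mul h1 (h1.trans h2) hw0.le (by linarith)
      _ = η / 2 := mul_one _
  have hΛw : Λ * w / (2 * Real.pi) ≤ g := by
    have h1 : Λ ≤ Real.log T := by
      rw [hΛ]
      calc (1 - d0 - d0) * Real.log T' ≤ (1 - d0 - d0) * ((1 + 2 * d) * Real.log T) :=
            mul_le_mul_of_nonneg_left hlogT'2 (by linarith)
        _ = ((1 - d0 - d0) * (1 + 2 * d)) * Real.log T := by ring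
        _ ≤ 1 * Real.log T := by
            apply mul_le_mul_of_nonneg_right _ hlog.le
            rw [hd4]
            have : 0 ≤ d * d := by positivity
            have e : (1 - 4 * d - 4 * d) * (1 + 2 * d) = 1 - 6 * d - 16 * (d * d) := by ring
            rw [e]; linarith
        _ = Real.log T := one_mul _
    have h2 : Real.log T * w / (2 * Real.pi) = g := by
      rw [hw, hσ]; field_simp
    rw [← h2]
    apply div_le_div_of_nonneg_right _ (by positivity)
    exact mul_le_mul_of_nonneg_right h1 hw0.le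
  set K : ℝ := (1 + ε) * g with hK
  have hKη : (1 + η) ^ 2 * (g + (2 * R + 3)) ≤ K := by
    rw [hη, hK]
    have h0 : (1 + ε / 24) ^ 2 * (g + (2 * R + 3)) ≤ (1 + ε / 24) ^ 2 * (g + g * (ε / 24)) :=
      mul_le_mul_of_nonneg_left (by linarith) (by positivity)
    have h1 : (1 + ε / 24) ^ 2 * (g + g * (ε / 24)) = (1 + ε / 24) ^ 3 * g := by ring
    refine h0.trans ?_
    rw [h1]
    have h2 := poly1 hε hε1
    exact mul_le_mul_of_nonneg_right (h2.trans (by linarith)) hg0.le
  -- the cells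
  set c : ℝ → ℕ := fun x => (⌈(x - T') / w⌉ - 1).toNat with hc
  set S := SF F U1 U2 with hS
  have hSb : ∀ x ∈ S, T' < x ∧ x ≤ T' + H := by
    intro x hx
    have h5 := SF_mem hF hU hx
    exact ⟨by linarith [h5.1], by linarith [h5.2]⟩
  have hcx : ∀ x : ℝ, T' < x → T' + (c x : ℝ) * w < x ∧ x ≤ T' + ((c x : ℝ) + 1) * w := by
    intro x hx
    have h1 : 0 < (x - T') / w := div_pos (by linarith) hw0
    have h2 : 0 < ⌈(x - T') / w⌉ := Int.ceil_pos.mpr h1
    have h3 : ((c x : ℕ) : ℤ) = ⌈(x - T') / w⌉ - 1 := by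
      simp only [hc]
      exact Int.toNat_of_nonneg (by omega)
    have h4 : (c x : ℝ) = (⌈(x - T') / w⌉ : ℝ) - 1 := by exact_mod_cast congrArg (fun z : ℤ => (z : ℝ)) h3
    have h5 := Int.le_ceil ((x - T') / w)
    have h6 := Int.ceil_lt_add_one ((x - T') / w)
    rw [h4]
    rw [div_le_iff₀ hw0] at h5
    have h7 : ((⌈(x - T') / w⌉ : ℝ) - 1) < (x - T') / w := by linarith
    rw [lt_div_iff₀ hw0] at h7
    constructor
    · linarith
    · have e : ((⌈(x - T') / w⌉ : ℝ) - 1 + 1) * w = ⌈(x - T') / w⌉ * w := by ring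
      rw [e]; linarith
  have hcell : ∀ k : ℕ, ∀ S' : Finset ℝ, (∀ x ∈ S', T' < x ∧ c x = k) →
      ∃ Y : ℝ → ℝ → ℝ, (∀ v : ℝ → ℂ, ∑ x ∈ S', ∑ y ∈ S', Y x y * (conj (v x) * v y).re ≤
          ∑ x ∈ S', ‖v x‖ ^ 2) ∧ (S'.card : ℝ) - YT Λ S' Y ≤ K := by
    intro k S' hS'
    obtain ⟨Y, hY, hYc⟩ := hR Λ (T' + k * w) w hΛ0 hw0.le hwη S' (by
      intro x hx
      obtain ⟨h1, h2⟩ := hS' x hx
      have h3 := hcx x h1
      rw [h2] at h3
      exact ⟨h3.1.le, by linarith [h3.2]⟩)
    refine ⟨Y, hY, hYc.trans (le_trans ?_ hKη)⟩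
    apply mul_le_mul_of_nonneg_left _ (by positivity)
    linarith
  have hcN : ∀ x ∈ S, T' < x ∧ c x < N := by
    intro x hx
    obtain ⟨h1, h2⟩ := hSb x hx
    refine ⟨h1, ?_⟩
    have h3 := (hcx x h1).1
    by_contra hcon
    push Not at hcon
    have h4 : (N : ℝ) ≤ c x := by exact_mod_cast hcon
    have h5 : (N : ℝ) * w ≤ (c x : ℝ) * w := mul_le_mul_of_nonneg_right h4 hw0.le
    rw [hH] at h2
    linarith
  obtain ⟨Y, hY, hYc⟩ := many2 c (fun x => T' < x) hcell N S hcN
  have htr := (trace_zeros hF hU Λ Y hY).1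
  rw [Ns_card hF hU, ← hS] at htr
  -- lower bound for the truncated counts
  have h2 := (abs_le.mp hNN).1
  have hpi4 := Real.pi_lt_d2
  have hsum : (2 - cMTinv - ε / 4) * M ≤ ∑ k ∈ Finset.range N,
      min ((S.filter (fun x => c x = k)).card : ℝ) K := by
    have h9 : M * (H295Iso.c0 (1 - d0 - d0) + η') ≤ M * (cMTinv + ε / 8 + η') :=
      mul_le_mul_of_nonneg_left (by linarith) hM0
    have h11 : η' * (2 * Real.pi * M) ≤ ε / 25 * M := by
      have : η' * (2 * Real.pi * M) = (η' * (2 * Real.pi)) * M := by ring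
      rw [this]
      apply mul_le_mul_of_nonneg_right _ hM0
      rw [hη']
      norm_num at hpi4
      have := mul_le_mul_of_nonneg_left hpi4.le hε.le
      linarith
    have h12 : M * (cMTinv + ε / 8 + η') = cMTinv * M + (ε / 8) * M + (ε / 200) * M := by
      rw [hη']; ring
    have h13 : (2 - cMTinv - ε / 4) * M = 2 * M - cMTinv * M - (ε / 4) * M := by ring
    have h14 : (ε / 4) * M = (ε / 8) * M + (ε / 200) * M + 2 * ((ε / 25) * M) + (1 / 25) * (ε * M)
        := by ring
    have h16 : 0 ≤ ε * M := by positivity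
    rw [h13]
    linarith
  have hK0 : 0 ≤ K := by rw [hK]; positivity
  have hle : ∑ k ∈ Finset.range N, min ((S.filter (fun x => c x = k)).card : ℝ) K ≤
      ∑ k ∈ Finset.range N, min (cnt F (T' + k * w) (T' + (k + 1) * w) : ℝ) K := by
    apply Finset.sum_le_sum
    intro k _
    apply min_le_min_right
    have hfin : {x : ℝ | T' + k * w < x ∧ x ≤ T' + (k + 1) * w ∧ SimpleAt F x}.Finite :=
      simple_finite hF (by
        have : 0 ≤ (k : ℝ) * w := by positivity
        linarith)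
    unfold cnt
    rw [← Set.ncard_coe_finset]
    have hsub : ((S.filter (fun x => c x = k) : Finset ℝ) : Set ℝ) ⊆
        {x : ℝ | T' + k * w < x ∧ x ≤ T' + (k + 1) * w ∧ SimpleAt F x} := by
      intro x hx
      rw [Finset.mem_coe, Finset.mem_filter] at hx
      have h3 := hcx x (hSb x hx.1).1
      rw [hx.2] at h3
      exact ⟨h3.1, h3.2, SF_simple hF hU hx.1⟩
    exact_mod_cast Set.ncard_le_ncard hsub hfin
  refine le_trans ?_ (hsum.trans hle)
  rcases le_or_gt (2 - cMTinv - ε) 0 with hneg | hpos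
  · rcases le_or_gt (2 - cMTinv - ε / 4) 0 with hneg' | hpos'
    · -- the sum is nonnegative, but we need a lower bound for `M`-term: use monotonicity
      exact absurd hneg' (by
        have := H370.Expl.cMTinv_num
        intro hcon
        linarith)
    · exact (mul_nonpos_of_nonpos_of_nonneg hneg (by positivity)).trans
        (mul_nonneg hpos'.le hM0)
  · calc (2 - cMTinv - ε) * (g * N) ≤ (2 - cMTinv - ε) * M :=
          mul_le_mul_of_nonneg_left hMg hpos.le
      _ ≤ (2 - cMTinv - ε / 4) * M := mul_le_mul_of_nonneg_right (by linarith) hM0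

end Pool.Agent.V1161.ZW
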