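import Pool.Agent.V1161.ZW.Core
import Pool.Agent.V1161.ZW.Cont
import Pool.Agent.V1161.ZW.Dist

/-!
# The measure of the set of common rich windows
-/

open Complex Filter Topology Set MeasureTheory
open scoped BigOperators

namespace Pool.Agent.V1161.ZW

open H370 Pool.Agent.TH342.CV

/-- the set of the `t` in `[T, T + H]` for which, for all `i`, the window of `ℓ` mean spacings at `t + b i` contains
at least `θ i * ℓ` simple zeros of `F i` on the critical line -/
def richSet {m : ℕ} (F : Fin m → ℂ → ℂ) (θ : Fin m → ℝ) (T ℓ H : ℝ) (b : Fin m → ℝ) : Set ℝ :=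
  {t : ℝ | t ∈ Set.Icc T (T + H) ∧ ∀ i, θ i * ℓ ≤
    (cnt (F i) (t + b i) (t + b i + ℓ * (2 * Real.pi / Real.log T)) : ℝ)}

lemma richSet_meas {m : ℕ} {F : Fin m → ℂ → ℂ} (hF : ∀ i, GoodL (F i)) (θ : Fin m → ℝ) {T ℓ H : ℝ}
    {b : Fin m → ℝ} (hT : ∀ i, 1 ≤ T + b i) : MeasurableSet (richSet F θ T ℓ H b) := by
  classical
  set w := ℓ * (2 * Real.pi / Real.log T) with hw
  have e1 : richSet F θ T ℓ H b = Set.Icc T (T + H) ∩ ⋂ i, {t : ℝ | θ i * ℓ ≤
      ∑ x ∈ (simple_finite (hF i) (T1 := T + b i) (T2 := T + H + b i + w) (hT i)).toFinset,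
        (Set.Ico (x - b i - w) (x - b i)).indicator (fun _ => (1 : ℝ)) t} := by
    ext t
    simp only [richSet, Set.mem_inter_iff, Set.mem_iInter, Set.mem_ofPred_eq]
    constructor
    · rintro ⟨h1, h2⟩
      refine ⟨h1, fun i => ?_⟩
      rw [← nw_eq (hF i) (hT i) h1.1 h1.2]
      exact h2 i
    · rintro ⟨h1, h2⟩
      refine ⟨h1, fun i => ?_⟩
      have := h2 i
      rw [← nw_eq (hF i) (hT i) h1.1 h1.2] at this
      exact this
  rw [e1]
  apply measurableSet_Icc.inter
  apply MeasurableSet.iInter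
  intro i
  apply measurableSet_le measurable_const
  apply Finset.measurable_sum
  intro x _
  exact measurable_const.indicator measurableSet_Ico

/-- a lower bound for the measure of a set from counts on the progressions of step `w` -/
lemma meas_of_count {E : Set ℝ} (hE : MeasurableSet E) {T w H C : ℝ} (N : ℕ) (hw : 0 < w)
    (hE1 : E ⊆ Set.Icc T (T + H)) (hC : ∀ s ∈ Set.Icc (0 : ℝ) w,
      C ≤ ∑ j ∈ Finset.range N, E.indicator (fun _ => (1 : ℝ)) (T + j * w + s)) :
    ENNReal.ofReal (C * w) ≤ volume E := by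
  have hfin : volume E ≠ ⊤ := ((measure_mono hE1).trans_lt measure_Icc_lt_top).ne
  set φ : ℝ → ℝ := E.indicator (fun _ => (1 : ℝ)) with hφ
  have hi : Integrable φ := by
    rw [hφ, integrable_indicator_iff hE]
    exact integrableOn_const (hs := hfin)
  have hφ0 : ∀ t, 0 ≤ φ t := fun t => Set.indicator_nonneg (fun _ _ => zero_le_one) _
  have hsplit : ∑ j ∈ Finset.range N, ∫ s in (0 : ℝ)..w, φ (T + j * w + s) =
      ∫ t in T..(T + N * w), φ t := by
    have h1 := intervalIntegral.sum_integral_adjacent_intervals (f := φ) (μ := volume)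
      (a := fun j : ℕ => T + j * w) (n := N) (fun j _ => hi.intervalIntegrable)
    simp only [Nat.cast_zero, zero_mul, add_zero] at h1
    rw [← h1]
    apply Finset.sum_congr rfl
    intro j _
    rw [intervalIntegral.integral_comp_add_left]
    congr 1
    · ring
    · push_cast; ring
  have hii : ∀ j : ℕ, IntervalIntegrable (fun s => φ (T + j * w + s)) volume 0 w := by
    intro j
    have h1 := (hi.intervalIntegrable (a := T + j * w) (b := T + j * w + w)).comp_add_left (T + j * w)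
    simpa using h1
  have h1 : C * w ≤ ∫ t in T..(T + N * w), φ t := by
    rw [← hsplit, ← intervalIntegral.integral_finsetSum (fun j _ => hii j)]
    have h2 : ∫ _s in (0 : ℝ)..w, C ≤
        ∫ s in (0 : ℝ)..w, ∑ j ∈ Finset.range N, φ (T + j * w + s) := by
      apply intervalIntegral.integral_mono_on hw.le
      · exact intervalIntegrable_const
      · exact ii_sum _ _ (fun j _ => hii j)
      · exact hC
    rw [intervalIntegral.integral_const, sub_zero, smul_eq_mul, mul_comm] at h2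
    exact h2
  have h3 : ∫ t in T..(T + N * w), φ t ≤ ∫ t, φ t := by
    have hNw : T ≤ T + N * w := by
      have : 0 ≤ (N : ℝ) * w := by positivity
      linarith
    rw [intervalIntegral.integral_of_le hNw]
    exact setIntegral_le_integral hi (Eventually.of_forall hφ0)
  have h4 : ∫ t, φ t = (volume E).toReal := by
    rw [hφ, integral_indicator hE]
    simp [Measure.real]
  rw [h4] at h3
  rw [← ENNReal.ofReal_toReal hfin]
  exact ENNReal.ofReal_le_ofReal (h1.trans h3)

/-- the measure of the set of common rich windows -/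
theorem meas (m : ℕ) (θ : Fin (m + 1) → ℝ) (hθ : ∀ i, 0 ≤ θ i ∧ θ i < 1) {ε : ℝ} (hε : 0 < ε) :
    ∃ ℓ₀ κ δ : ℝ, 0 < ℓ₀ ∧ 0 < κ ∧ 0 < δ ∧ δ < 1 ∧
    ∀ F : Fin (m + 1) → ℂ → ℂ, (∀ i, GoodL (F i)) → ∃ T₀ : ℝ, 10 ≤ T₀ ∧ ∀ T : ℝ, T₀ ≤ T →
      ∀ ℓ : ℝ, ℓ₀ ≤ ℓ → ℓ ≤ κ * Real.log T → ∀ H : ℝ, T ^ (1 - δ) ≤ H → H ≤ T →
      ∀ b : Fin (m + 1) → ℝ, (∀ i, 0 ≤ b i ∧ b i ≤ T ^ (1 + δ)) →
      MeasurableSet (richSet F θ T ℓ H b) ∧
      ENNReal.ofReal (((∑ i, (2 - cMTinv - θ i) / (1 - θ i)) - m - ε) * H) ≤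
        volume (richSet F θ T ℓ H b) := by
  classical
  have hpi := Real.pi_pos
  set p : ℝ := 2 - cMTinv with hp
  set Q : ℝ := ∑ i, 1 / (1 - θ i) with hQ
  have hQ0 : 0 < Q := by
    apply Finset.sum_pos
    · intro i _
      have := (hθ i).2
      exact one_div_pos.2 (by linarith)
    · exact Finset.univ_nonempty
  set e : ℝ := min (ε / (4 * Q)) 1 with he
  have he0 : 0 < e := lt_min (by positivity) one_pos
  have he1 : e ≤ 1 := min_le_right _ _
  have heQ : 2 * e * Q ≤ ε / 2 := by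
    have h1 : e ≤ ε / (4 * Q) := min_le_left _ _
    rw [le_div_iff₀ (by positivity)] at h1
    linarith
  obtain ⟨g₀, hg₀, κ, hκ, d, hd0, hd1, hcore⟩ := coreU he0 he1
  set δ : ℝ := d / 2 with hδ
  have hδ0 : 0 < δ := by positivity
  have hδ1 : δ < 1 := by rw [hδ]; linarith
  have hd2 : d = 2 * δ := by rw [hδ]; ring
  refine ⟨g₀, κ, δ, hg₀, hκ, hδ0, hδ1, fun F hF => ?_⟩
  choose T1 hT1 hT1' using fun i => hcore (F i) (hF i)
  obtain ⟨T2, hT2⟩ := (Set.finite_range T1).bddAbove
  have hT2' : ∀ i, T1 i ≤ T2 := fun i => hT2 ⟨i, rfl⟩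
  set W : ℝ := 2 * Real.pi * κ with hW
  have hW0 : 0 < W := by positivity
  have ev1 : ∀ᶠ T : ℝ in atTop, 2 ≤ T ^ δ := (tendsto_rpow_atTop hδ0).eventually_ge_atTop 2
  have ev2 : ∀ᶠ T : ℝ in atTop, W / min (1 / 2) (ε / 2) ≤ T ^ (1 - δ) :=
    (tendsto_rpow_atTop (by linarith)).eventually_ge_atTop _
  obtain ⟨T3, hT3⟩ := (ev1.and ev2).exists_forall_of_atTop
  refine ⟨max 10 (max (max T2 T3) W), le_max_left _ _,
    fun T hT ℓ hℓ1 hℓ2 H hH1 hH2 b hb => ?_⟩
  have hT10 : 10 ≤ T := (le_max_left _ _).trans hT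
  have hTT2 : T2 ≤ T := ((le_max_left _ _).trans ((le_max_left _ _).trans (le_max_right _ _))).trans hT
  have hTT3 := hT3 T (((le_max_right _ _).trans ((le_max_left _ _).trans (le_max_right _ _))).trans hT)
  have hTW : W ≤ T := ((le_max_right _ _).trans (le_max_right _ _)).trans hT
  have hT0 : 0 < T := by linarith
  have hlog : 0 < Real.log T := Real.log_pos (by linarith)
  have hms := richSet_meas hF θ (T := T) (ℓ := ℓ) (H := H) (b := b)
    (fun i => by linarith [(hb i).1])
  refine ⟨hms, ?_⟩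
  set w : ℝ := ℓ * (2 * Real.pi / Real.log T) with hw
  have hℓ0 : 0 < ℓ := hg₀.trans_le hℓ1
  have hw0 : 0 < w := by positivity
  have hwW : w ≤ W := by
    rw [hw, hW]
    calc ℓ * (2 * Real.pi / Real.log T) ≤ (κ * Real.log T) * (2 * Real.pi / Real.log T) :=
          mul_le_mul_of_nonneg_right hℓ2 (by positivity)
      _ = 2 * Real.pi * κ := by field_simp
  have hmin : 0 < min (1 / 2) (ε / 2) := by positivity
  have hWT : W ≤ min (1 / 2) (ε / 2) * T ^ (1 - δ) := by
    have := hTT3.2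
    rw [div_le_iff₀ hmin] at this
    linarith
  have hTp : 0 < T ^ (1 - δ) := Real.rpow_pos_of_pos hT0 _
  have hW1 : W ≤ 1 / 2 * T ^ (1 - δ) :=
    hWT.trans (mul_le_mul_of_nonneg_right (min_le_left _ _) hTp.le)
  have hW2 : W ≤ ε / 2 * H := by
    refine hWT.trans ((mul_le_mul_of_nonneg_right (min_le_right _ _) hTp.le).trans ?_)
    exact mul_le_mul_of_nonneg_left hH1 (by positivity)
  have hH0 : 0 < H := hTp.trans_le hH1
  have hTd : T ^ (1 - d) * 2 ≤ T ^ (1 - δ) := by
    have e1 : T ^ (1 - δ) = T ^ (1 - d) * T ^ δ := by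
      rw [← Real.rpow_add hT0]; congr 1; rw [hd2]; ring
    rw [e1]
    exact mul_le_mul_of_nonneg_left hTT3.1 (Real.rpow_nonneg hT0.le _)
  have hTd' : T ^ (1 + δ) + T ≤ T ^ (1 + d) := by
    have e1 : T ^ (1 + d) = T ^ (1 + δ) * T ^ δ := by
      rw [← Real.rpow_add hT0]; congr 1; rw [hd2]; ring
    have e2 : T ≤ T ^ (1 + δ) := by
      conv_lhs => rw [← Real.rpow_one T]
      exact Real.rpow_le_rpow_of_exponent_le (by linarith) (by linarith)
    have e3 : T ^ (1 + δ) * 2 ≤ T ^ (1 + δ) * T ^ δ :=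
      mul_le_mul_of_nonneg_left hTT3.1 (Real.rpow_nonneg hT0.le _)
    rw [e1]; linarith
  -- the number of windows
  set N : ℕ := ⌊H / w⌋₊ with hN
  have hN1 : (N : ℝ) * w ≤ H := by
    have := Nat.floor_le (div_nonneg hH0.le hw0.le)
    rwa [← hN, le_div_iff₀ hw0] at this
  have hN2 : H - w < N * w := by
    have := Nat.lt_floor_add_one (H / w)
    rw [← hN, div_lt_iff₀ hw0] at this
    linarith
  have hN3 : T ^ (1 - d) ≤ N * w := by linarith
  have hNp : (0 : ℝ) < N := by
    by_contra h3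
    push Not at h3
    have := mul_nonpos_of_nonpos_of_nonneg h3 hw0.le
    linarith [Real.rpow_pos_of_pos hT0 (1 - d)]
  set c₁ : ℝ := (∑ i, (p - θ i) / (1 - θ i)) - m - ε / 2 with hc₁
  have hcount : ∀ s ∈ Set.Icc (0 : ℝ) w, c₁ * N ≤ ∑ j ∈ Finset.range N,
      (richSet F θ T ℓ H b).indicator (fun _ => (1 : ℝ)) (T + j * w + s) := by
    intro s hs
    set n : Fin (m + 1) → ℕ → ℝ := fun i j =>
      (cnt (F i) (T + j * w + s + b i) (T + j * w + s + b i + w) : ℝ) with hn
    set A : Fin (m + 1) → Finset ℕ := fun i => (Finset.range N).filter (fun j => θ i * ℓ ≤ n i j)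
      with hA
    have hrow : ∀ i, (p - θ i - 2 * e) / (1 - θ i) * N ≤ ((A i).card : ℝ) := by
      intro i
      have h1 := hT1' i T ((hT2' _).trans hTT2) ℓ hℓ1 hℓ2 (b i + s)
        (add_nonneg (hb i).1 hs.1) (by linarith [(hb i).2, hs.2]) N hN3 (hN1.trans hH2)
      have h2 : ∀ j ∈ Finset.range N, (min ((cnt (F i) (T + (b i + s) + j * (ℓ * (2 * Real.pi / Real.log T)))
          (T + (b i + s) + (j + 1) * (ℓ * (2 * Real.pi / Real.log T))) : ℕ) : ℝ) ((1 + e) * ℓ)) =
          min (n i j) ((1 + e) * ℓ) := by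
        intro j _
        simp only [hn]
        have e1 : T + (b i + s) + j * w = T + j * w + s + b i := by ring
        have e2 : T + (b i + s) + (j + 1) * w = T + j * w + s + b i + w := by ring
        rw [← hw, e1, e2]
      rw [Finset.sum_congr rfl h2] at h1
      have h3 := rich_card N (fun j => n i j) ℓ (θ i) e (p - e) hℓ0 he0.le h1
      have h4 : 0 < 1 - θ i := by linarith [(hθ i).2]
      rw [div_mul_eq_mul_div, div_le_iff₀ h4, mul_comm ((A i).card : ℝ)]
      refine le_trans (le_of_eq ?_) h3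
      ring
    have hj := joint_card N (m + 1) m A (fun i => Finset.filter_subset _ _)
    have hsum : c₁ * N ≤ (∑ i, ((A i).card : ℝ)) - m * N := by
      have h1 : (∑ i, (p - θ i - 2 * e) / (1 - θ i)) * N ≤ ∑ i, ((A i).card : ℝ) := by
        rw [Finset.sum_mul]
        exact Finset.sum_le_sum fun i _ => hrow i
      have h2 : (∑ i, (p - θ i - 2 * e) / (1 - θ i)) =
          (∑ i, (p - θ i) / (1 - θ i)) - 2 * e * Q := by
        rw [hQ, Finset.mul_sum, ← Finset.sum_sub_distrib]
        apply Finset.sum_congr rfl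
        intro i _
        ring
      have h3 : c₁ ≤ (∑ i, (p - θ i - 2 * e) / (1 - θ i)) - m := by rw [h2, hc₁]; linarith
      have h4 := mul_le_mul_of_nonneg_right h3 hNp.le
      linarith
    refine hsum.trans (hj.trans ?_)
    have e3 : ((m + 1 : ℕ) : ℝ) - m = 1 := by push_cast; ring
    rw [e3, one_mul, Finset.card_filter]
    push_cast
    apply Finset.sum_le_sum
    intro j hjN
    have hjN' := Finset.mem_range.1 hjN
    by_cases hin : m + 1 ≤ (Finset.univ.filter (fun i => j ∈ A i)).card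
    · have hall : ∀ i, j ∈ A i := by
        have h1 : Finset.univ.filter (fun i => j ∈ A i) = Finset.univ := by
          apply Finset.eq_univ_of_card
          rw [Fintype.card_fin]
          apply le_antisymm _ hin
          have := Finset.card_le_univ (Finset.univ.filter (fun i => j ∈ A i))
          rwa [Fintype.card_fin] at this
        intro i
        have h2 : i ∈ Finset.univ.filter (fun i => j ∈ A i) := by rw [h1]; exact Finset.mem_univ _
        exact (Finset.mem_filter.1 h2).2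
      have hmem : T + j * w + s ∈ richSet F θ T ℓ H b := by
        refine ⟨⟨?_, ?_⟩, fun i => ?_⟩
        · have : 0 ≤ (j : ℝ) * w := by positivity
          linarith [hs.1]
        · have h1 : ((j : ℝ) + 1) * w ≤ N * w := by
            apply mul_le_mul_of_nonneg_right _ hw0.le
            exact_mod_cast hjN'
          have h2 : ((j : ℝ) + 1) * w = j * w + w := by ring
          linarith [hs.2]
        · exact (Finset.mem_filter.1 (hall i)).2
      rw [if_pos hin, Set.indicator_of_mem hmem]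
    · rw [if_neg hin]
      exact Set.indicator_nonneg (fun _ _ => zero_le_one) _
  have hE1 : richSet F θ T ℓ H b ⊆ Set.Icc T (T + H) := fun t ht => ht.1
  have hvol := meas_of_count hms N hw0 hE1 hcount
  refine le_trans (ENNReal.ofReal_le_ofReal ?_) hvol
  have hc11 : c₁ ≤ 1 := by
    have h1 := hcount 0 ⟨le_rfl, hw0.le⟩
    have h2 : ∑ j ∈ Finset.range N, (richSet F θ T ℓ H b).indicator (fun _ => (1 : ℝ)) (T + j * w + 0) ≤
        ∑ _j ∈ Finset.range N, (1 : ℝ) :=
      Finset.sum_le_sum fun j _ => Set.indicator_le_self' (fun _ _ => zero_le_one) _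
    rw [Finset.sum_const, Finset.card_range, nsmul_eq_mul, mul_one] at h2
    have h3 : c₁ * N ≤ 1 * N := by rw [one_mul]; exact h1.trans h2
    exact le_of_mul_le_mul_right h3 hNp
  have h5 : (∑ i, (p - θ i) / (1 - θ i)) - m - ε = c₁ - ε / 2 := by rw [hc₁]; ring
  rw [h5]
  rcases le_or_gt c₁ 0 with hneg | hpos
  · have h6 : c₁ * H ≤ c₁ * (N * w) := mul_le_mul_of_nonpos_left hN1 hneg
    have h7 : 0 ≤ ε / 2 * H := by positivity
    calc (c₁ - ε / 2) * H = c₁ * H - ε / 2 * H := by ring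
      _ ≤ c₁ * (N * w) := by linarith
      _ = c₁ * N * w := by ring
  · have h6 : c₁ * (H - w) ≤ c₁ * (N * w) := mul_le_mul_of_nonneg_left hN2.le hpos.le
    have h7 : c₁ * w ≤ 1 * w := mul_le_mul_of_nonneg_right hc11 hw0.le
    calc (c₁ - ε / 2) * H = c₁ * (H - w) + c₁ * w - ε / 2 * H := by ring
      _ ≤ c₁ * (N * w) := by linarith
      _ = c₁ * N * w := by ring

end Pool.Agent.V1161.ZW
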