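import Pool.Agent.V1161.ZW.Core
import Pool.Agent.V1161.ZW.Cont
import Pool.Agent.V1161.VC.Real

/-!
# Polynomial shifts of the windows
-/

open Complex Filter Topology Set MeasureTheory
open scoped BigOperators

namespace Pool.Agent.V1161.ZW

open H370 Pool.Agent.TH342.CV

/-- the truncated and normalised count of the simple critical zeros in the window at `t`, restricted to an interval -/
noncomputable def tr (F : ℂ → ℂ) (K w A B : ℝ) (t : ℝ) : ℝ :=
  (Set.Icc A B).indicator (fun t => min (cnt F t (t + w) : ℝ) K / K) t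

lemma tr_meas {F : ℂ → ℂ} (hF : GoodL F) {K w A B : ℝ} (hA : 1 ≤ A) : Measurable (tr F K w A B) := by
  classical
  have h0 : 1 ≤ A + 0 := by linarith
  have e1 : tr F K w A B = (Set.Icc A B).indicator (fun t => min (∑ x ∈ (simple_finite hF (T1 := A + 0)
      (T2 := B + 0 + w) h0).toFinset,
        (Set.Ico (x - 0 - w) (x - 0)).indicator (fun _ => (1 : ℝ)) t) K / K) := by
    funext t
    unfold tr
    by_cases ht : t ∈ Set.Icc A B
    · rw [Set.indicator_of_mem ht, Set.indicator_of_mem ht]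
      have := nw_eq hF (w := w) (b := 0) h0 ht.1 ht.2
      rw [← this]
      simp only [add_zero]
    · rw [Set.indicator_of_notMem ht, Set.indicator_of_notMem ht]
  rw [e1]
  apply Measurable.indicator _ measurableSet_Icc
  apply Measurable.div_const
  apply Measurable.min _ measurable_const
  apply Finset.measurable_sum
  intro x _
  exact measurable_const.indicator measurableSet_Ico

lemma tr_bdd (F : ℂ → ℂ) {K w A B : ℝ} (hK : 0 < K) (t : ℝ) :
    0 ≤ tr F K w A B t ∧ tr F K w A B t ≤ 1 := by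
  unfold tr
  by_cases ht : t ∈ Set.Icc A B
  · rw [Set.indicator_of_mem ht]
    exact ⟨div_nonneg (le_min (Nat.cast_nonneg _) hK.le) hK.le, (div_le_one hK).2 (min_le_right _ _)⟩
  · rw [Set.indicator_of_notMem ht]
    exact ⟨le_rfl, zero_le_one⟩

lemma tr_le (F : ℂ → ℂ) {K w A B : ℝ} (hK : 0 < K) (t : ℝ) :
    tr F K w A B t ≤ (cnt F t (t + w) : ℝ) / K := by
  unfold tr
  by_cases ht : t ∈ Set.Icc A B
  · rw [Set.indicator_of_mem ht]
    exact div_le_div_of_nonneg_right (min_le_left _ _) hK.le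
  · rw [Set.indicator_of_notMem ht]
    exact div_nonneg (Nat.cast_nonneg _) hK.le

/-- the mean of the truncated and normalised counts -/
theorem mean_tr {e : ℝ} (he0 : 0 < e) (he1 : e ≤ 1) : ∃ ℓ₀ κ δ : ℝ, 0 < ℓ₀ ∧ 0 < κ ∧ 0 < δ ∧ δ < 1 ∧
    ∀ F : ℂ → ℂ, GoodL F → ∃ T₀ : ℝ, 10 ≤ T₀ ∧ ∀ T : ℝ, T₀ ≤ T →
      ∀ ℓ : ℝ, ℓ₀ ≤ ℓ → ℓ ≤ κ * Real.log T → ∀ H : ℝ, T ^ (1 - δ) ≤ H → H ≤ T →
      (2 - cMTinv - 2 * e) / (1 + e) * H ≤ ∫ t in T..(T + H),
        tr F ((1 + e) * ℓ) (ℓ * (2 * Real.pi / Real.log T)) (T / 2) (3 * T) t := by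
  classical
  have hpi := Real.pi_pos
  have hcg := cMTinv_gt_one
  set p : ℝ := 2 - cMTinv with hp
  have hp1 : p < 1 := by linarith
  obtain ⟨g₀, hg₀, κ, hκ, d, hd0, hd1, hcore⟩ := coreU he0 he1
  set δ : ℝ := d / 2 with hδ
  have hδ0 : 0 < δ := by positivity
  have hδ1 : δ < 1 := by rw [hδ]; linarith
  have hd2 : d = 2 * δ := by rw [hδ]; ring
  refine ⟨g₀, κ, δ, hg₀, hκ, hδ0, hδ1, fun F hF => ?_⟩
  obtain ⟨T1, hT1, hT1'⟩ := hcore F hF
  set W : ℝ := 2 * Real.pi * κ with hW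
  have hW0 : 0 < W := by positivity
  have ev1 : ∀ᶠ T : ℝ in atTop, 2 ≤ T ^ δ := (tendsto_rpow_atTop hδ0).eventually_ge_atTop 2
  have ev2 : ∀ᶠ T : ℝ in atTop, W / min (1 / 2) e ≤ T ^ (1 - δ) :=
    (tendsto_rpow_atTop (by linarith)).eventually_ge_atTop _
  obtain ⟨T3, hT3⟩ := (ev1.and ev2).exists_forall_of_atTop
  refine ⟨max 10 (max (max T1 T3) W), le_max_left _ _, fun T hT ℓ hℓ1 hℓ2 H hH1 hH2 => ?_⟩
  have hT10 : 10 ≤ T := (le_max_left _ _).trans hT
  have hTT1 : T1 ≤ T := ((le_max_left _ _).trans ((le_max_left _ _).trans (le_max_right _ _))).trans hT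
  have hTT3 := hT3 T (((le_max_right _ _).trans ((le_max_left _ _).trans (le_max_right _ _))).trans hT)
  have hTW : W ≤ T := ((le_max_right _ _).trans (le_max_right _ _)).trans hT
  have hT0 : 0 < T := by linarith
  have hlog : 0 < Real.log T := Real.log_pos (by linarith)
  set w : ℝ := ℓ * (2 * Real.pi / Real.log T) with hw
  have hℓ0 : 0 < ℓ := hg₀.trans_le hℓ1
  have hw0 : 0 < w := by positivity
  have hwW : w ≤ W := by
    rw [hw, hW]
    calc ℓ * (2 * Real.pi / Real.log T) ≤ (κ * Real.log T) * (2 * Real.pi / Real.log T) :=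
          mul_le_mul_of_nonneg_right hℓ2 (by positivity)
      _ = 2 * Real.pi * κ := by field_simp
  have hmin : 0 < min (1 / 2) e := by positivity
  have hWT : W ≤ min (1 / 2) e * T ^ (1 - δ) := by
    have := hTT3.2
    rw [div_le_iff₀ hmin] at this
    linarith
  have hTp : 0 < T ^ (1 - δ) := Real.rpow_pos_of_pos hT0 _
  have hW1 : W ≤ 1 / 2 * T ^ (1 - δ) :=
    hWT.trans (mul_le_mul_of_nonneg_right (min_le_left _ _) hTp.le)
  have hW2 : W ≤ e * H := by
    refine hWT.trans ((mul_le_mul_of_nonneg_right (min_le_right _ _) hTp.le).trans ?_)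
    exact mul_le_mul_of_nonneg_left hH1 (by positivity)
  have hH0 : 0 < H := hTp.trans_le hH1
  have hTd : T ^ (1 - d) * 2 ≤ T ^ (1 - δ) := by
    have e1 : T ^ (1 - δ) = T ^ (1 - d) * T ^ δ := by
      rw [← Real.rpow_add hT0]; congr 1; rw [hd2]; ring
    rw [e1]
    exact mul_le_mul_of_nonneg_left hTT3.1 (Real.rpow_nonneg hT0.le _)
  have hTd' : T ≤ T ^ (1 + d) := by
    conv_lhs => rw [← Real.rpow_one T]
    exact Real.rpow_le_rpow_of_exponent_le (by linarith) (by linarith)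
  -- the number of windows
  set N : ℕ := ⌊H / w⌋₊ with hN
  have hN1 : (N : ℝ) * w ≤ H := by
    have := Nat.floor_le (div_nonneg hH0.le hw0.le)
    rwa [← hN, le_div_iff₀ hw0] at this
  have hN2 : H - w < N * w := by
    have := Nat.lt_floor_add_one (H / w)
    rw [← hN, div_lt_iff₀ hw0] at this
    linarith
  have hN3 : T ^ (1 - d) ≤ N * w := by linarith
  set K : ℝ := (1 + e) * ℓ with hK
  have hK0 : 0 < K := by positivity
  set φ : ℝ → ℝ := tr F K w (T / 2) (3 * T) with hφ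
  have hφm : Measurable φ := tr_meas hF (by linarith)
  have hφb : ∀ t, 0 ≤ φ t ∧ φ t ≤ 1 := fun t => tr_bdd F hK0 t
  have hii : ∀ A B, IntervalIntegrable φ volume A B := fun A B => VC.ii_bdd hφm hφb A B
  have hpt : ∀ s ∈ Set.Icc (0 : ℝ) w, (p - e) / (1 + e) * N ≤
      ∑ j ∈ Finset.range N, φ (T + j * w + s) := by
    intro s hs
    have h1 := hT1' T hTT1 ℓ hℓ1 hℓ2 s hs.1 (by linarith [hs.2]) N hN3 (hN1.trans hH2)
    have h2 : ∑ j ∈ Finset.range N, φ (T + j * w + s) = (∑ j ∈ Finset.range N,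
        min (cnt F (T + s + j * (ℓ * (2 * Real.pi / Real.log T)))
          (T + s + (j + 1) * (ℓ * (2 * Real.pi / Real.log T))) : ℝ) K) / K := by
      rw [Finset.sum_div]
      apply Finset.sum_congr rfl
      intro j hj
      have hjN : ((j : ℝ) + 1) * w ≤ N * w := by
        apply mul_le_mul_of_nonneg_right _ hw0.le
        exact_mod_cast Finset.mem_range.1 hj
      have hj0 : 0 ≤ (j : ℝ) * w := by positivity
      have hjN' : ((j : ℝ) + 1) * w = j * w + w := by ring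
      have hmem : T + j * w + s ∈ Set.Icc (T / 2) (3 * T) := by
        constructor
        · linarith [hs.1]
        · linarith [hs.2]
      simp only [hφ, tr]
      rw [Set.indicator_of_mem hmem]
      have e1 : T + s + j * w = T + j * w + s := by ring
      have e2 : T + s + (j + 1) * w = T + j * w + s + w := by ring
      rw [← hw, e1, e2]
    rw [h2, le_div_iff₀ hK0]
    refine le_trans (le_of_eq ?_) h1
    rw [hK, hp]; field_simp
  have hsplit : ∑ j ∈ Finset.range N, ∫ s in (0 : ℝ)..w, φ (T + j * w + s) =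
      ∫ t in T..(T + N * w), φ t := by
    have h1 := intervalIntegral.sum_integral_adjacent_intervals (f := φ) (μ := volume)
      (a := fun j : ℕ => T + j * w) (n := N) (fun j _ => hii _ _)
    simp only [Nat.cast_zero, zero_mul, add_zero] at h1
    rw [← h1]
    apply Finset.sum_congr rfl
    intro j _
    rw [intervalIntegral.integral_comp_add_left]
    congr 1
    · ring
    · push_cast; ring
  have hii' : ∀ j : ℕ, IntervalIntegrable (fun s => φ (T + j * w + s)) volume 0 w := fun j =>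
    VC.ii_bdd (hφm.comp (measurable_const_add _)) (fun t => hφb _) _ _
  have h1 : (p - e) / (1 + e) * N * w ≤ ∫ t in T..(T + N * w), φ t := by
    rw [← hsplit, ← intervalIntegral.integral_finsetSum (fun j _ => hii' j)]
    have h2 : ∫ _s in (0 : ℝ)..w, (p - e) / (1 + e) * N ≤
        ∫ s in (0 : ℝ)..w, ∑ j ∈ Finset.range N, φ (T + j * w + s) := by
      apply intervalIntegral.integral_mono_on hw0.le
      · exact intervalIntegrable_const
      · exact ii_sum _ _ (fun j _ => hii' j)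
      · exact hpt
    rw [intervalIntegral.integral_const, sub_zero, smul_eq_mul, mul_comm] at h2
    exact h2
  have h3 : ∫ t in T..(T + N * w), φ t ≤ ∫ t in T..(T + H), φ t := by
    rw [← intervalIntegral.integral_add_adjacent_intervals (hii T (T + N * w)) (hii (T + N * w) (T + H))]
    have h4 : 0 ≤ ∫ t in (T + N * w)..(T + H), φ t :=
      intervalIntegral.integral_nonneg (by linarith) fun t _ => (hφb t).1
    linarith
  refine le_trans ?_ (h1.trans h3)
  have he' : 0 < 1 + e := by linarith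
  rw [mul_assoc, div_mul_eq_mul_div, div_mul_eq_mul_div]
  apply div_le_div_of_nonneg_right _ he'.le
  rcases le_or_gt (p - 2 * e) 0 with hneg | hpos
  · rcases le_or_gt (p - e) 0 with hneg' | hpos'
    · have h5 : (p - e) * H ≤ (p - e) * (N * w) := mul_le_mul_of_nonpos_left hN1 hneg'
      have h6 : 0 ≤ e * H := by positivity
      nlinarith
    · have h5 : (p - 2 * e) * H ≤ 0 := mul_nonpos_of_nonpos_of_nonneg hneg hH0.le
      have h6 : 0 ≤ (p - e) * (N * w) := by positivity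
      linarith
  · have h5 : (p - e) * (H - w) ≤ (p - e) * (N * w) :=
      mul_le_mul_of_nonneg_left hN2.le (by linarith)
    have h6 : (p - e) * w ≤ 1 * w := mul_le_mul_of_nonneg_right (by linarith) hw0.le
    have h7 : (p - 2 * e) * H = (p - e) * (H - w) + (p - e) * w - e * H := by ring
    linarith

/-- correlations at polynomial shifts -/
theorem polyw (d : ℕ) {ε : ℝ} (hε : 0 < ε) : ∃ (N : ℕ) (ℓ₀ κ δ c : ℝ), 1 ≤ N ∧ 0 < ℓ₀ ∧ 0 < κ ∧
    0 < δ ∧ δ < 1 ∧ 0 < c ∧
    ∀ F : ℂ → ℂ, GoodL F → ∃ T₀ : ℝ, 10 ≤ T₀ ∧ ∀ T : ℝ, T₀ ≤ T →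
      ∀ ℓ : ℝ, ℓ₀ ≤ ℓ → ℓ ≤ κ * Real.log T → ∀ H : ℝ, T ^ (1 - δ) ≤ H → H ≤ T →
      ∀ β : Fin d → ℝ, (∀ r, |β r| ≤ c * H) → ∃ n : ℕ, 1 ≤ n ∧ n ≤ N ∧
        ((2 - cMTinv) ^ 2 - ε) * (ℓ ^ 2 * H) ≤ ∫ t in T..(T + H),
          (cnt F t (t + ℓ * (2 * Real.pi / Real.log T)) : ℝ) *
          (cnt F (t + ∑ r, β r * (n : ℝ) ^ ((r : ℕ) + 1))
            (t + (∑ r, β r * (n : ℝ) ^ ((r : ℕ) + 1)) + ℓ * (2 * Real.pi / Real.log T)) : ℝ) := by
  classical
  have hpi := Real.pi_pos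
  have hcg := cMTinv_gt_one
  have hcn := H370.Expl.cMTinv_num
  set p : ℝ := 2 - cMTinv with hp
  have hp0 : 1 / 2 < p := by norm_num at hcn ⊢; linarith
  obtain ⟨e, he0, he1, heq⟩ : ∃ e : ℝ, 0 < e ∧ e ≤ 1 / 8 ∧ p ^ 2 - ε / 2 ≤ ((p - 2 * e) / (1 + e)) ^ 2 := by
    have hc : ContinuousAt (fun x : ℝ => ((p - 2 * x) / (1 + x)) ^ 2) 0 := by
      apply ContinuousAt.pow
      apply ContinuousAt.div <;> first | fun_prop | norm_num
    have h0 : (fun x : ℝ => ((p - 2 * x) / (1 + x)) ^ 2) 0 = p ^ 2 := by simp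
    have h1 : ∀ᶠ x in 𝓝 (0 : ℝ), p ^ 2 - ε / 2 < ((p - 2 * x) / (1 + x)) ^ 2 := by
      apply hc.eventually (lt_mem_nhds _)
      rw [h0]; linarith
    rw [Metric.eventually_nhds_iff] at h1
    obtain ⟨ρ, hρ0, hρ⟩ := h1
    refine ⟨min (ρ / 2) (1 / 8), by positivity, min_le_right _ _, (hρ ?_).le⟩
    rw [Real.dist_eq, sub_zero, abs_of_pos (by positivity)]
    exact (min_le_left _ _).trans_lt (by linarith)
  obtain ⟨ℓ₀, κ, δ, h1, h2, h3, h4, h5⟩ := mean_tr he0 (by linarith)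
  obtain ⟨N, c, hN, hc, h6⟩ := VC.real_poly d (ε := ε / 2) (by positivity)
  set c' : ℝ := min c (1 / (2 * (d * (N : ℝ) ^ (d + 1) + 1))) with hc'
  have hc'0 : 0 < c' := lt_min hc (by positivity)
  refine ⟨N, ℓ₀, κ, δ, c', hN, h1, h2, h3, h4, hc'0, fun F hF => ?_⟩
  obtain ⟨T₀, hT₀, h7⟩ := h5 F hF
  refine ⟨T₀, hT₀, fun T hT ℓ hℓ1 hℓ2 H hH1 hH2 β hβ => ?_⟩
  have hT10 : 10 ≤ T := hT₀.trans hT
  have hH0 : 0 < H := (Real.rpow_pos_of_pos (by linarith) _).trans_le hH1
  have hℓ0 : 0 < ℓ := h1.trans_le hℓ1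
  set K : ℝ := (1 + e) * ℓ with hK
  have hK0 : 0 < K := by positivity
  set w : ℝ := ℓ * (2 * Real.pi / Real.log T) with hw
  set φ : ℝ → ℝ := tr F K w (T / 2) (3 * T) with hφ
  have hφm : Measurable φ := tr_meas hF (by linarith)
  have hφb : ∀ t, 0 ≤ φ t ∧ φ t ≤ 1 := fun t => tr_bdd F hK0 t
  obtain ⟨n, hn1, hn2, h8⟩ := h6 T H hH0 φ hφm hφb β
    (fun r => (hβ r).trans (mul_le_mul_of_nonneg_right (min_le_left _ _) hH0.le))
  refine ⟨n, hn1, hn2, ?_⟩
  set S : ℝ := ∑ r, β r * (n : ℝ) ^ ((r : ℕ) + 1) with hS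
  have hSabs : |S| ≤ T / 2 := by
    calc |S| ≤ ∑ r, |β r * (n : ℝ) ^ ((r : ℕ) + 1)| := Finset.abs_sum_le_sum_abs _ _
      _ ≤ ∑ _r : Fin d, (c' * H) * (N : ℝ) ^ (d + 1) := by
          apply Finset.sum_le_sum
          intro r _
          rw [abs_mul, abs_pow, Nat.abs_cast]
          apply mul_le_mul (hβ r) _ (by positivity) (by positivity)
          have h9 : n ^ ((r : ℕ) + 1) ≤ N ^ (d + 1) :=
            (Nat.pow_le_pow_left hn2 _).trans (Nat.pow_le_pow_right hN (by omega))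
          exact_mod_cast h9
      _ = (d * (N : ℝ) ^ (d + 1)) * c' * H := by
          rw [Finset.sum_const, Finset.card_univ, Fintype.card_fin, nsmul_eq_mul]; ring
      _ ≤ 1 / 2 * H := by
          apply mul_le_mul_of_nonneg_right _ hH0.le
          have h9 : c' ≤ 1 / (2 * (d * (N : ℝ) ^ (d + 1) + 1)) := min_le_right _ _
          rw [le_div_iff₀ (by positivity)] at h9
          nlinarith
      _ ≤ T / 2 := by linarith
  have hq := h7 T hT ℓ hℓ1 hℓ2 H hH1 hH2
  have hμ : ((p - 2 * e) / (1 + e)) ^ 2 ≤ ((∫ t in T..(T + H), φ t) / H) ^ 2 := by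
    apply pow_le_pow_left₀
    · apply div_nonneg _ (by linarith)
      linarith
    · rw [le_div_iff₀ hH0]
      exact hq
  have hlow : (p ^ 2 - ε) * H ≤ ∫ t in T..(T + H), φ t * φ (t + S) := by
    refine le_trans (mul_le_mul_of_nonneg_right ?_ hH0.le) h8
    linarith
  -- comparison with the counts
  have hci : IntervalIntegrable (fun t => (cnt F t (t + w) : ℝ) * (cnt F (t + S) (t + S + w) : ℝ))
      volume T (T + H) := by
    have h9 := prod_int (k := 2) (F := fun _ => F) (fun _ => hF) (A := T) (B := T + H) (w := w)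
      (b := ![0, S]) (by
        intro i
        fin_cases i
        · simp; linarith
        · simp; linarith [(abs_le.1 hSabs).1]) (by linarith)
    simp only [Fin.prod_univ_two, Matrix.cons_val_zero, Matrix.cons_val_one, add_zero] at h9
    exact h9
  have hmono : ∫ t in T..(T + H), φ t * φ (t + S) ≤
      ∫ t in T..(T + H), (1 / ℓ ^ 2) * ((cnt F t (t + w) : ℝ) * (cnt F (t + S) (t + S + w) : ℝ)) := by
    apply intervalIntegral.integral_mono_on (by linarith)
    · exact VC.ii_bdd (hφm.mul (hφm.comp (measurable_add_const S)))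
        (fun t => ⟨mul_nonneg (hφb _).1 (hφb _).1, mul_le_one₀ (hφb _).2 (hφb _).1 (hφb _).2⟩) _ _
    · exact hci.const_mul _
    · intro t _
      have h9 : ∀ u, φ u ≤ (cnt F u (u + w) : ℝ) / ℓ := by
        intro u
        refine (tr_le F hK0 u).trans ?_
        apply div_le_div_of_nonneg_left (Nat.cast_nonneg _) hℓ0
        rw [hK]; nlinarith
      calc φ t * φ (t + S) ≤ (cnt F t (t + w) : ℝ) / ℓ * ((cnt F (t + S) (t + S + w) : ℝ) / ℓ) :=
            mul_le_mul (h9 t) (h9 (t + S)) (hφb _).1 (div_nonneg (Nat.cast_nonneg _) hℓ0.le)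
        _ = _ := by field_simp
  rw [intervalIntegral.integral_const_mul] at hmono
  have h10 := hlow.trans hmono
  rw [one_div, inv_mul_eq_div, le_div_iff₀ (by positivity)] at h10
  calc (p ^ 2 - ε) * (ℓ ^ 2 * H) = (p ^ 2 - ε) * H * ℓ ^ 2 := by ring
    _ ≤ _ := h10

end Pool.Agent.V1161.ZW
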